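import Mathlib
import Pool.Agent.Mg.F0641e2.Gbf8884
import Pool.Agent.MP_0641e2_an.Adm

/-! Statements of the steps in the description of all orthogonal speeds. -/

open Complex Set Filter Topology Metric

noncomputable section

namespace Pool.Agent.MP_0641e2_an.Ch

/-- `h` is a primitive of `g` on the right half-plane -/
def Pr (h g : ℂ → ℂ) : Prop := ∀ w ∈ RH, HasDerivAt h (g w) w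

/-- `g` has no zero on the right half-plane -/
def Nz (g : ℂ → ℂ) : Prop := ∀ w ∈ RH, g w ≠ 0

/-- length of the image of the segment from `1` to `r` under a primitive -/
def TT (g : ℂ → ℂ) (r : ℝ) : ℝ := ∫ x in (1 : ℝ)..r, ‖g x‖

/-- the local scale -/
def mm (g : ℂ → ℂ) (r : ℝ) : ℝ := r * ‖g r‖

def SDer : Prop := ∀ g, Her g → ∀ w ∈ RH, ‖deriv g w‖ * w.re ≤ (g w).re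

def SHar : Prop := ∀ g, Her g → ∀ a ∈ RH, ∀ b ∈ RH, ∀ L : ℝ, 0 ≤ L →
  ‖a - b‖ ^ 2 ≤ L * (a.re * b.re) → ‖g a‖ ≤ (L + 2) * ‖g b‖

def SMon : Prop := ∀ g, Her g → ∀ r s : ℝ, 0 < r → r ≤ s →
  mm g r ≤ mm g s ∧ ‖g s‖ * r ≤ ‖g r‖ * s

def SHor : Prop := ∀ g h, Her g → Pr h g →
  (∀ x x' y : ℝ, 0 < x → x ≤ x' → (h (x + y * I)).re ≤ (h (x' + y * I)).re) ∧
  ∀ r y : ℝ, 0 < r → |y| ≤ r → ‖h (r + y * I) - h r‖ ≤ 3 * mm g r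

def STa : Prop := ∀ g h, Her g → Nz g → Pr h g → ∀ r : ℝ, 1 ≤ r →
  (h r).re - (h 1).re ≤ TT g r ∧ TT g r ≤ (h r).re - (h 1).re + mm g r

def STb : Prop := ∀ g, Her g → ∀ r K : ℝ, 1 ≤ r → 1 ≤ K →
  TT g r + Real.log K * mm g r ≤ TT g (K * r) ∧ TT g (K * r) ≤ TT g r + Real.log K * mm g (K * r)

def SIm : Prop := ∃ C : ℝ, 0 ≤ C ∧ ∀ g h, Her g → Pr h g → ∀ R : ℝ, 0 < R → ∀ b ∈ RH,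
  b.re ≤ R → |b.im| ≤ R → |(h R - h b).im| ≤ C * mm g R

def SA : Prop := ∃ C : ℝ, 0 ≤ C ∧ ∀ g h, Her g → Pr h g → ∀ (w : ℝ → ℂ) (t M r : ℝ), 0 ≤ t →
  ContinuousOn w (Icc 0 t) → w 0 = 1 → (∀ s ∈ Icc 0 t, 1 ≤ (w s).re ∧ (h (w s)).re ≤ M) →
  1 ≤ r → 2 * r ≤ ‖w t‖ → (h r).re ≤ M + C * mm g r

def SB : Prop := ∃ C : ℝ, 0 < C ∧ ∀ P w, Her P → Nz P → Orb P w → w 0 = 1 →
  ∀ R s t : ℝ, 0 < R → 0 ≤ s → s ≤ t → ‖w s‖ ≤ R → 4 * R ≤ ‖w t‖ → R ≤ C * (t - s) * ‖P R‖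

def SUp : Prop := ∃ K : ℝ, 1 ≤ K ∧ ∀ g h, Her g → Nz g → Pr h g → ∀ ζ ∈ RH, 1 ≤ ‖ζ‖ →
  (h ζ).re - (h 1).re ≤ TT g (K * ‖ζ‖)

def SLow : Prop := ∃ K : ℝ, 1 ≤ K ∧ ∀ P w h, Her P → Nz P → Orb P w → w 0 = 1 →
  Pr h (fun z => (P z)⁻¹) → (∀ s, 0 ≤ s → (h (w s)).re = (h 1).re + s) →
  ∀ t r : ℝ, 0 ≤ t → 1 ≤ r → K * r ≤ ‖w t‖ → TT (fun z => (P z)⁻¹) r ≤ t

def SOnto : Prop := ∀ g, Her g → Nz g →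
  StrictMonoOn (TT g) (Ici 1) ∧ ∀ t : ℝ, 0 ≤ t → ∃ r : ℝ, 1 ≤ r ∧ TT g r = t

def SCv : Prop := ∀ g, Her g →
  ConvexOn ℝ (Ici 0) (fun u : ℝ => TT g (Real.exp (2 * u))) ∧
  ConcaveOn ℝ (Ici 1) fun X : ℝ => TT g (Real.sqrt X)

def SInv : Prop := ∀ g, Her g → Nz g →
  ∃ c, Adm c ∧ ∀ r : ℝ, 1 ≤ r → c (TT g r) = Real.log r / 2

def SFwd : Prop := ∃ C : ℝ, ∀ φ τ, IsSemigroup φ → IsDW φ τ →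
  ∃ c, Adm c ∧ ∀ t, 0 ≤ t → |Real.log ‖cay τ (φ t 0)‖ / 2 - c t| ≤ C

def SInj : Prop := ∀ g h : ℂ → ℂ, ContinuousOn g RH → (∀ w ∈ RH, 0 < (g w).re) → Pr h g →
  InjOn h RH

def SInvH : Prop := ∀ g h : ℂ → ℂ, Nz g → Pr h g → InjOn h RH →
  IsOpen (h '' RH) ∧ ∃ k : ℂ → ℂ, (∀ w ∈ RH, k (h w) = w) ∧
    ∀ w ∈ RH, HasDerivAt k (g w)⁻¹ (h w)

def SApr : Prop := ∀ P, Her P → Nz P → ∀ (w : ℝ → ℂ) (b : ℝ), 0 ≤ b →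
  (∀ s ∈ Icc 0 b, w s ∈ RH ∧ HasDerivAt w (P (w s)) s) →
  (w 0).re ≤ (w b).re ∧ ‖w b - w 0‖ ≤ b * ‖P (w 0)‖ * Real.exp (b * ‖P (w 0)‖ / (w 0).re)

def SStar : Prop := ∀ g h : ℂ → ℂ, Her g → Nz g → Pr h g → InjOn h RH →
  ∀ w ∈ RH, ∀ t : ℝ, 0 ≤ t → ∃ w' ∈ RH, w.re ≤ w'.re ∧ h w' = h w + t

def SSemi : Prop := ∀ h k : ℂ → ℂ, DifferentiableOn ℂ h RH → IsOpen (h '' RH) →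
  DifferentiableOn ℂ k (h '' RH) → (∀ w ∈ RH, k (h w) = w) →
  (∀ w ∈ RH, ∀ t : ℝ, 0 ≤ t → ∃ w' ∈ RH, w.re ≤ w'.re ∧ h w' = h w + t) →
  IsSemigroup fun (t : ℝ) z => cinv 1 (k (h (cay 1 z) + t))

def SDW : Prop := ∀ h k : ℂ → ℂ, ContinuousOn h RH → (∀ w ∈ RH, k (h w) = w) →
  (∀ w ∈ RH, ∀ t : ℝ, 0 ≤ t → ∃ w' ∈ RH, w.re ≤ w'.re ∧ h w' = h w + t) →
  IsDW (fun (t : ℝ) z => cinv 1 (k (h (cay 1 z) + t))) 1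

/-- the piecewise linear model at the nodes -/
def DD (σ : ℝ) (a : ℕ → ℝ) (n : ℕ) : ℝ := σ * 4 ^ n + ∑' j, a j * min 1 ((4 : ℝ) ^ n / 4 ^ j)

/-- the smooth model -/
def ps (σ : ℝ) (a : ℕ → ℝ) (X : ℝ) : ℝ := σ * X + ∑' j, a j * (X / (X + 4 ^ j))

def SMaj0 : Prop := ∀ d : ℕ → ℝ, 0 < d 0 → (∀ n, d n ≤ d (n + 1)) → (∀ n, d (n + 1) ≤ 4 * d n) →
  ∃ D s : ℕ → ℝ, (∀ n, D (n + 1) = D n + 3 * 4 ^ n * s n) ∧ (∀ n, 0 ≤ s n) ∧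
    (∀ n, s (n + 1) ≤ s n) ∧ s 0 ≤ D 0 ∧ (∀ n, d n ≤ D n) ∧ (∀ n, D n ≤ 2 * d n) ∧
    ∀ n, D n - d n ≤ 4 ^ n * s n

def SMaj : Prop := ∀ d : ℕ → ℝ, 0 < d 0 → (∀ n, d n ≤ d (n + 1)) → (∀ n, d (n + 1) ≤ 4 * d n) →
  ∃ (σ : ℝ) (a : ℕ → ℝ), 0 ≤ σ ∧ (∀ j, 0 ≤ a j) ∧ Summable (fun j => a j / 4 ^ j) ∧
    (∀ n, d n ≤ DD σ a n) ∧ ∀ N, ∑ n ∈ Finset.range N, (DD σ a n - d n) ≤ d N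

def SEst : Prop := ∀ (σ : ℝ) (a : ℕ → ℝ), 0 ≤ σ → (∀ j, 0 ≤ a j) →
  Summable (fun j => a j / 4 ^ j) → ∀ n, DD σ a n ≤ 2 * ps σ a (4 ^ n) ∧
    ps σ a (4 ^ n) ≤ DD σ a n ∧
    DD σ a n - ps σ a (4 ^ n) ≤ 2 * (ps σ a (4 ^ (n + 1)) - ps σ a (4 ^ n))

def SHer : Prop := ∀ (σ : ℝ) (a : ℕ → ℝ), 0 ≤ σ → (∀ j, 0 ≤ a j) →
  Summable (fun j => a j / 4 ^ j) →
  ∃ g, Her g ∧ ∀ x : ℝ, 0 < x → g x = ((ps σ a (x ^ 2) / x : ℝ) : ℂ) ∧ 0 ≤ ps σ a (x ^ 2)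

def SSeq : Prop := ∀ c, Adm c → MonotoneOn c (Ici 0) ∧ ∃ t : ℕ → ℝ, t 0 = 0 ∧ t 0 < t 1 ∧
  (∀ n : ℕ, c (t n) = n * Real.log 2 / 2) ∧
  (∀ n, t (n + 1) - t n ≤ t (n + 2) - t (n + 1)) ∧
  ∀ n, t (n + 2) - t (n + 1) ≤ 4 * (t (n + 1) - t n)

def SReal : Prop := ∀ g h, Her g → Pr h g → (∀ x : ℝ, 0 < x → g x = ((‖g x‖ : ℝ) : ℂ)) →
  ∀ r : ℝ, 1 ≤ r → h r = h 1 + (TT g r : ℝ)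

def SGen : Prop := ∀ t : ℕ → ℝ, t 0 = 0 → t 0 < t 1 →
  (∀ n, t (n + 1) - t n ≤ t (n + 2) - t (n + 1)) →
  (∀ n, t (n + 2) - t (n + 1) ≤ 4 * (t (n + 1) - t n)) →
  ∃ g, Her g ∧ (∀ w ∈ RH, 0 < (g w).re) ∧ (∀ x : ℝ, 0 < x → g x = ((‖g x‖ : ℝ) : ℂ)) ∧
    ∀ N : ℕ, TT g (2 ^ N) ≤ t (N + 2) ∧ t N ≤ TT g (2 ^ (N + 2))

def SCmp : Prop := ∀ (c T : ℝ → ℝ) (t : ℕ → ℝ), MonotoneOn c (Ici 0) → StrictMonoOn T (Ici 1) →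
  t 0 = 0 → t 0 < t 1 → (∀ n, t (n + 1) - t n ≤ t (n + 2) - t (n + 1)) →
  (∀ n : ℕ, c (t n) = n * Real.log 2 / 2) →
  (∀ N : ℕ, T (2 ^ N) ≤ t (N + 2) ∧ t N ≤ T (2 ^ (N + 2))) →
  ∀ r : ℝ, 1 ≤ r → 0 ≤ T r → |Real.log r / 2 - c (T r)| ≤ 2

def SBwd : Prop := ∀ c, Adm c → ∃ φ, IsSemigroup φ ∧ IsDW φ 1 ∧
  ∀ t, 0 ≤ t → (φ t 0).im = 0 ∧ |Real.log ‖cay 1 (φ t 0)‖ / 2 - c t| ≤ 2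

end Pool.Agent.MP_0641e2_an.Ch
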