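import Mathlib
import Pool.Agent.MP_0641e2_an.Ch.St

/-! Every model function is close to an orthogonal speed: the steps. -/

open Complex Set Filter Topology Metric

namespace Pool.Agent.MP_0641e2_an.Ch

theorem sInj : SInj := by
  intro g h _ hp hd a ha b hb e
  by_contra hne
  have hab : a - b ≠ 0 := sub_ne_zero.2 hne
  have hm : ∀ u ∈ Icc (0 : ℝ) 1, b + u * (a - b) ∈ RH := fun u hu => by
    have h1 := mem_RH.1 ha
    have h2 := mem_RH.1 hb
    simp only [mem_RH, add_re, re_ofReal_mul, sub_re]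
    rcases le_total a.re b.re with h | h <;> nlinarith [hu.1, hu.2]
  have hder : ∀ u ∈ Icc (0 : ℝ) 1, HasDerivAt (fun u : ℝ => (h (b + u * (a - b)) / (a - b)).re)
      (g (b + u * (a - b))).re u := fun u hu => by
    have h1 : HasDerivAt (fun z : ℂ => h (b + z * (a - b)) / (a - b)) (g (b + u * (a - b))) u := by
      have h2 := ((hd _ (hm u hu)).comp (u : ℂ)
        (((hasDerivAt_id (u : ℂ)).mul_const (a - b)).const_add b)).div_const (a - b)
      rwa [one_mul, mul_div_cancel_right₀ _ hab] at h2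
    exact h1.real_of_complex
  obtain ⟨u, hu, h0⟩ := exists_hasDerivAt_eq_zero (a := 0) (b := 1) zero_lt_one
    (fun u hu => (hder u hu).continuousAt.continuousWithinAt) (by simp [e])
    fun u hu => hder u (Ioo_subset_Icc_self hu)
  exact (hp _ (hm u (Ioo_subset_Icc_self hu))).ne' h0

theorem sInvH : SInvH := by
  intro g h hz hd hi
  have hs : ∀ w ∈ RH, HasStrictDerivAt h (g w) w := fun w hw => by
    have h1 : DifferentiableOn ℂ h RH := fun z hz =>
      (hd z hz).differentiableAt.differentiableWithinAt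
    have h2 := (h1.analyticAt (isOpen_RH.mem_nhds hw)).hasStrictDerivAt
    rwa [(hd w hw).deriv] at h2
  refine ⟨isOpen_iff_mem_nhds.2 ?_, Function.invFunOn h RH, hi.leftInvOn_invFunOn,
    fun w hw => ((hs w hw).to_local_left_inverse (hz w hw) ?_).hasDerivAt⟩
  · rintro _ ⟨w, hw, rfl⟩
    rw [← (hs w hw).map_nhds_eq (hz w hw)]
    exact image_mem_map (isOpen_RH.mem_nhds hw)
  · filter_upwards [isOpen_RH.mem_nhds hw] with x hx using hi.leftInvOn_invFunOn hx

theorem anti_Apr {f f' : ℝ → ℝ} {b s : ℝ} (hs : s ∈ Icc 0 b)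
    (hd : ∀ t ∈ Icc 0 b, HasDerivAt f (f' t) t) (hp : ∀ t ∈ Icc 0 b, f' t ≤ 0) : f s ≤ f 0 :=
  neg_le_neg_iff.1 (le_of_der (f := fun t => -f t) (f' := fun t => -f' t) le_rfl hs.1
    (fun t ht => (hd t ⟨ht.1, ht.2.trans hs.2⟩).neg.hasDerivWithinAt)
    fun t ht => neg_nonneg.2 (hp t ⟨ht.1.le, ht.2.le.trans hs.2⟩))

theorem sApr (hD : SDer) : SApr := by
  intro P hP _ w b hb hw
  have hx : ∀ s ∈ Icc 0 b, 0 < (w s).re := fun s hs => (hw s hs).1
  have dx : ∀ s ∈ Icc 0 b, HasDerivAt (fun t => (w t).re) (P (w s)).re s := fun s hs =>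
    reCLM.hasFDerivAt.comp_hasDerivAt s (hw s hs).2
  have dp : ∀ s ∈ Icc 0 b, HasDerivAt (fun t => P (w t)) (deriv P (w s) * P (w s)) s :=
    fun s hs => by
      have h1 := (hP.diff.differentiableAt (isOpen_RH.mem_nhds (hw s hs).1)).hasDerivAt
      exact ((h1.hasFDerivAt.restrictScalars ℝ).comp_hasDerivAt s (hw s hs).2).congr_deriv
        (by simp [mul_comm])
  have dn : ∀ s ∈ Icc 0 b, HasDerivAt (fun t => ‖P (w t)‖ ^ 2)
      (2 * ((deriv P (w s)).re * ‖P (w s)‖ ^ 2)) s := fun s hs => by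
    convert (dp s hs).norm_sq using 2
    rw [Complex.inner, mul_assoc, mul_conj, normSq_eq_norm_sq, re_mul_ofReal]
  have h0 : (0 : ℝ) ∈ Icc 0 b := ⟨le_rfl, hb⟩
  have x0 := hx 0 h0
  obtain ⟨κ, hκ⟩ : ∃ κ, κ = ‖P (w 0)‖ / (w 0).re := ⟨_, rfl⟩
  have κ0 : 0 ≤ κ := hκ ▸ div_nonneg (norm_nonneg _) x0.le
  have k1 : ∀ s ∈ Icc 0 b, ‖P (w s)‖ ≤ κ * (w s).re := fun s hs => by
    have h1 := anti_Apr hs
      (fun t ht => (dn t ht).div ((dx t ht).pow 2) (pow_ne_zero 2 (hx t ht).ne')) fun t ht => by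
        refine div_nonpos_of_nonpos_of_nonneg ?_ (sq_nonneg _)
        have h2 : (deriv P (w t)).re * (w t).re ≤ (P (w t)).re :=
          (mul_le_mul_of_nonneg_right (re_le_norm _) (hx t ht).le).trans (hD P hP _ (hw t ht).1)
        have h3 := mul_le_mul_of_nonneg_left h2
          (mul_nonneg (sq_nonneg ‖P (w t)‖) (hx t ht).le)
        simp only [Pi.pow_apply, Nat.cast_ofNat, Nat.add_one_sub_one, pow_one]
        linarith
    simp only [Pi.div_apply, Pi.pow_apply] at h1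
    rw [← div_pow, ← div_pow, ← hκ] at h1
    exact (div_le_iff₀ (hx s hs)).1 (le_of_sq_le_sq h1 κ0)
  have k2 : ∀ s ∈ Icc 0 b, (w s).re ≤ (w 0).re * Real.exp (b * κ) := fun s hs => by
    have h1 := anti_Apr hs
      (fun t ht => (dx t ht).mul (((hasDerivAt_id' t).const_mul (-κ)).exp)) fun t ht => by
        have h2 := mul_le_mul_of_nonneg_right ((re_le_norm _).trans (k1 t ht))
          (Real.exp_pos (-κ * t)).le
        linarith
    simp only [Pi.mul_apply, mul_zero, Real.exp_zero, mul_one] at h1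
    have h3 : Real.exp (-κ * s) * Real.exp (κ * s) = 1 := by
      rw [← Real.exp_add]; simp
    calc (w s).re = (w s).re * Real.exp (-κ * s) * Real.exp (κ * s) := by
          rw [mul_assoc, h3, mul_one]
      _ ≤ (w 0).re * Real.exp (κ * s) := mul_le_mul_of_nonneg_right h1 (Real.exp_pos _).le
      _ ≤ _ := by
          rw [mul_comm b]
          gcongr
          exact hs.2
  refine ⟨le_of_der le_rfl hb (fun t ht => (dx t ht).hasDerivWithinAt)
    fun t ht => hP.nonneg _ (hw t (Ioo_subset_Icc_self ht)).1, ?_⟩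
  have k3 := norm_image_sub_le_of_norm_deriv_le_segment' (C := ‖P (w 0)‖ * Real.exp (b * κ))
    (fun t ht => (hw t ht).2.hasDerivWithinAt) (fun t ht => by
      refine (k1 t (Ico_subset_Icc_self ht)).trans
        ((mul_le_mul_of_nonneg_left (k2 t (Ico_subset_Icc_self ht)) κ0).trans (le_of_eq ?_))
      rw [← mul_assoc]
      congr 1
      rw [hκ, div_mul_cancel₀ _ x0.ne']) b ⟨hb, le_rfl⟩
  rw [mul_div_assoc, ← hκ]
  linarith

theorem her_Star {g : ℂ → ℂ} (hg : Her g) (h0 : Nz g) : Her fun z => (g z)⁻¹ :=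
  ⟨hg.diff.inv h0, fun w hw => by
    rw [inv_re]
    exact div_nonneg (hg.nonneg w hw) (normSq_nonneg _)⟩

theorem sStar (hK : SInvH) (hA : SApr) : SStar := by
  intro g h hg h0 hp hi w hw t ht
  obtain ⟨ho, k, k1, k2⟩ := hK g h h0 hp hi
  have hw0 : 0 < w.re := hw
  obtain ⟨K, hKd⟩ : ∃ K : Set ℂ, K = {z : ℂ | w.re ≤ z.re} ∩
      closedBall w (t * ‖(g w)⁻¹‖ * Real.exp (t * ‖(g w)⁻¹‖ / w.re)) := ⟨_, rfl⟩
  have c1 : IsCompact K := hKd ▸ (isCompact_closedBall _ _).inter_left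
    (isClosed_le continuous_const continuous_re)
  have c2 : K ⊆ RH := fun z hz => by
    rw [hKd] at hz
    exact hw0.trans_le hz.1
  have c3 : IsClosed (h '' K) := (c1.image_of_continuousOn fun z hz =>
    (hp z (c2 hz)).continuousAt.continuousWithinAt).isClosed
  have c4 : Continuous fun s : ℝ => h w + s := by fun_prop
  have c5 : Icc 0 t ⊆ (fun s : ℝ => h w + s) ⁻¹' (h '' K) := by
    refine ((c3.preimage c4).inter isClosed_Icc).Icc_subset_of_forall_mem_nhdsGT_of_Icc_subset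
      ⟨w, ?_, by simp⟩ fun u hu hs => ?_
    · rw [hKd]
      exact ⟨le_refl w.re, mem_closedBall_self (by positivity)⟩
    have d1 : ∀ s ∈ Icc 0 u, h w + s ∈ h '' RH := fun s h1 => image_mono c2 (hs h1)
    obtain ⟨ε, ε0, hε⟩ := Metric.isOpen_iff.1 (ho.preimage c4) u (d1 u ⟨hu.1, le_rfl⟩)
    filter_upwards [Ioo_mem_nhdsGT (lt_min hu.2 (lt_add_of_pos_right u ε0))] with b hb
    have b0 : 0 ≤ b := hu.1.trans hb.1.le
    have bt : b ≤ t := hb.2.le.trans (min_le_left _ _)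
    have d2 : ∀ s ∈ Icc 0 b, h w + s ∈ h '' RH := fun s h1 => by
      rcases le_or_gt s u with h2 | h2
      · exact d1 s ⟨h1.1, h2⟩
      · refine hε ?_
        rw [Real.ball_eq_Ioo]
        exact ⟨by linarith, h1.2.trans_lt (hb.2.trans_le (min_le_right _ _))⟩
    have d3 := hA _ (her_Star hg h0) (fun z hz => inv_ne_zero (h0 z hz))
      (fun s : ℝ => k (h w + s)) b b0 fun s h1 => by
        obtain ⟨z, hz, e⟩ := d2 s h1
        have e1 : k (h w + s) = z := by rw [← e, k1 z hz]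
        have e2 := k2 z hz
        rw [e] at e2
        rw [e1]
        exact ⟨hz, HasDerivAt.comp_ofReal (e := fun y => k (h w + y)) (e2.comp_const_add _ _)⟩
    obtain ⟨z, hz, e⟩ := d2 b ⟨b0, le_rfl⟩
    simp only [ofReal_zero, add_zero, k1 w hw, ← e, k1 z hz] at d3
    refine ⟨z, ?_, e⟩
    rw [hKd]
    refine ⟨d3.1, mem_closedBall_iff_norm.2 (d3.2.trans ?_)⟩
    gcongr
  obtain ⟨z, hz, e⟩ := c5 ⟨ht, le_rfl⟩
  refine ⟨z, c2 hz, ?_, e⟩
  rw [hKd] at hz
  exact hz.1

theorem sSemi : SSemi := by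
  intro h k hh ho hk hkh hs
  have h1 : ‖(1 : ℂ)‖ = 1 := norm_one
  have him : ∀ w ∈ RH, ∀ t : ℝ, 0 ≤ t → h w + t ∈ h '' RH := fun w hw t ht =>
    let ⟨w', h2, _, h3⟩ := hs w hw t ht
    ⟨w', h2, h3⟩
  have hRH : ∀ w ∈ RH, ∀ t : ℝ, 0 ≤ t → k (h w + t) ∈ RH ∧ h (k (h w + t)) = h w + t := by
    intro w hw t ht
    obtain ⟨w', h2, _, h3⟩ := hs w hw t ht
    rw [← h3, hkh w' h2]
    exact ⟨h2, rfl⟩
  refine ⟨fun t ht => ?_, fun t ht z hz => cinv_mem h1 (hRH _ (cay_mem h1 hz) t ht).1,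
    fun z hz => ?_, fun s t hs0 ht z hz => ?_, fun t ht => ?_⟩
  · exact diff_cinv.comp (hk.comp (((hh.comp (diff_cay h1) fun z hz => cay_mem h1 hz)).add_const _)
      fun z hz => him _ (cay_mem h1 hz) t ht) fun z hz => (hRH _ (cay_mem h1 hz) t ht).1
  · simp only [ofReal_zero, add_zero]
    rw [hkh _ (cay_mem h1 hz), cinv_cay h1 hz]
  · obtain ⟨h2, h3⟩ := hRH _ (cay_mem h1 hz) s hs0
    simp only [cay_cinv h1 h2, h3]
    congr 2
    push_cast
    ring
  · refine tendstoLocallyUniformlyOn_iff_forall_tendsto.2 fun z hz => ?_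
    have hw := cay_mem h1 hz
    have c1 : ContinuousAt (fun p : ℝ × ℂ => h (cay 1 p.2) + (p.1 : ℂ)) (t, z) := by
      refine ContinuousAt.add ?_ (continuous_ofReal.comp continuous_fst).continuousAt
      have c2 : ContinuousAt (fun y => h (cay 1 y)) z :=
        (hh.comp (diff_cay h1) fun z hz => cay_mem h1 hz).continuousOn.continuousAt
          (isOpen_ball.mem_nhds hz)
      exact ContinuousAt.comp (f := Prod.snd) (x := (t, z)) c2 continuous_snd.continuousAt
    have c3 : ContinuousAt (fun p : ℝ × ℂ => k (h (cay 1 p.2) + (p.1 : ℂ))) (t, z) :=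
      ContinuousAt.comp (f := fun p : ℝ × ℂ => h (cay 1 p.2) + (p.1 : ℂ)) (x := (t, z))
        (hk.continuousOn.continuousAt (ho.mem_nhds (him _ hw t ht))) c1
    have c4 : ContinuousAt (fun p : ℝ × ℂ => cinv 1 (k (h (cay 1 p.2) + (p.1 : ℂ)))) (t, z) :=
      ContinuousAt.comp (f := fun p : ℝ × ℂ => k (h (cay 1 p.2) + (p.1 : ℂ))) (x := (t, z))
        (diff_cinv.continuousOn.continuousAt (isOpen_RH.mem_nhds (hRH _ hw t ht).1)) c3
    have e1 : Tendsto (fun p : ℝ × ℂ => p) (𝓝[Ici 0] t ×ˢ 𝓝[ball 0 1] z) (𝓝 (t, z)) := by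
      rw [nhds_prod_eq]
      exact tendsto_id.mono_left (prod_mono nhdsWithin_le_nhds nhdsWithin_le_nhds)
    have e2 : Tendsto (fun p : ℝ × ℂ => (t, p.2)) (𝓝[Ici 0] t ×ˢ 𝓝[ball 0 1] z) (𝓝 (t, z)) :=
      tendsto_const_nhds.prodMk_nhds (tendsto_snd.mono_right nhdsWithin_le_nhds)
    exact ((c4.tendsto.comp e2).prodMk_nhds (c4.tendsto.comp e1)).mono_right
      (nhds_le_uniformity _)

theorem sDW : SDW := by
  intro h k hh hkh hs
  have h1 : ‖(1 : ℂ)‖ = 1 := norm_one
  refine ⟨h1, fun z hz => ?_⟩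
  have hw := cay_mem h1 hz
  set w := cay 1 z with hwd
  have hR : ∀ t : ℝ, 0 ≤ t → k (h w + t) ∈ RH ∧ w.re ≤ (k (h w + t)).re ∧
      h (k (h w + t)) = h w + t := by
    intro t ht
    obtain ⟨w', h2, h4, h3⟩ := hs w hw t ht
    rw [← h3, hkh w' h2]
    exact ⟨h2, h4, rfl⟩
  have hn : Tendsto (fun t : ℝ => ‖k (h w + t)‖) atTop atTop := by
    refine tendsto_atTop.2 fun R => ?_
    have hc : IsCompact ({u : ℂ | w.re ≤ u.re} ∩ closedBall 0 R) :=
      (isCompact_closedBall 0 R).inter_left (isClosed_le continuous_const continuous_re)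
    obtain ⟨M, hM⟩ := hc.exists_bound_of_continuousOn
      (hh.mono fun u hu => (mem_RH.1 hw).trans_le hu.1)
    filter_upwards [eventually_ge_atTop 0, eventually_gt_atTop (M + ‖h w‖)] with t ht0 ht
    by_contra hlt
    obtain ⟨-, h3, h4⟩ := hR t ht0
    have h5 := hM _ ⟨h3, mem_closedBall_zero_iff.2 (not_le.1 hlt).le⟩
    rw [h4] at h5
    have h6 := norm_sub_le (h w + t) (h w)
    rw [add_sub_cancel_left, norm_real, Real.norm_of_nonneg ht0] at h6
    linarith
  have hn1 : Tendsto (fun t : ℝ => ‖k (h w + t) + 1‖) atTop atTop := by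
    refine tendsto_atTop_mono (fun t => ?_) (tendsto_atTop_add_const_right _ (-1) hn)
    have := norm_sub_le (k (h w + t) + 1) 1
    rw [add_sub_cancel_right, norm_one] at this
    linarith
  have h0 : Tendsto (fun t : ℝ => (k (h w + t) + 1)⁻¹) atTop (𝓝 0) := by
    rw [tendsto_zero_iff_norm_tendsto_zero]
    simp only [norm_inv]
    exact hn1.inv_tendsto_atTop
  have h2 := (h0.const_mul 2).const_sub 1
  rw [mul_zero, sub_zero] at h2
  refine h2.congr' ?_
  filter_upwards [eventually_ge_atTop 0] with t ht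
  have h3 := add_one_ne (hR t ht).1
  change 1 - 2 * (k (h w + t) + 1)⁻¹ = 1 * ((k (h w + t) - 1) / (k (h w + t) + 1))
  generalize k (h w + t) = u at h3 ⊢
  field_simp
  ring

theorem grow_Maj0 {d : ℕ → ℝ} (h4 : ∀ n, d (n + 1) ≤ 4 * d n) (n i : ℕ) :
    d (n + i) ≤ 4 ^ i * d n := by
  induction i with
  | zero => simp
  | succ i ih =>
    have := h4 (n + i)
    rw [← add_assoc, pow_succ]
    linarith

theorem sMaj0 : SMaj0 := by
  intro d h0 h1 h4
  have hm : Monotone d := monotone_nat_of_le_succ h1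
  have hd : ∀ n, 0 < d n := fun n => h0.trans_le (hm (Nat.zero_le n))
  have hp : ∀ n : ℕ, (0 : ℝ) < 4 ^ n := fun n => by positivity
  let L : Set (ℝ × ℝ) := {p | 0 ≤ p.1 ∧ 0 ≤ p.2 ∧ ∀ k, d k ≤ p.1 + p.2 * 4 ^ k}
  have hL : ∀ n, (d n, d n / 4 ^ n) ∈ L := fun n => by
    have hq : 0 ≤ d n / 4 ^ n := div_nonneg (hd n).le (hp n).le
    refine ⟨(hd n).le, hq, fun k => ?_⟩
    rcases le_total k n with h | h
    · have := mul_nonneg hq (hp k).le
      have := hm h
      simp only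
      linarith
    · obtain ⟨i, rfl⟩ := Nat.exists_eq_add_of_le h
      have h5 := grow_Maj0 h4 n i
      have h6 : d n / 4 ^ n * 4 ^ (n + i) = 4 ^ i * d n := by
        have := (hp n).ne'
        rw [pow_add]
        field_simp
      have := hd n
      simp only
      linarith
  obtain ⟨D, hle, hge⟩ : ∃ D : ℕ → ℝ, (∀ n, ∀ p ∈ L, D n ≤ p.1 + p.2 * 4 ^ n) ∧
      ∀ n c, (∀ p ∈ L, c ≤ p.1 + p.2 * 4 ^ n) → c ≤ D n := by
    refine ⟨fun n => sInf ((fun p : ℝ × ℝ => p.1 + p.2 * 4 ^ n) '' L), fun n p hp' => ?_,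
      fun n c hc => ?_⟩
    · refine csInf_le ⟨d n, ?_⟩ ⟨p, hp', rfl⟩
      rintro _ ⟨q, hq, rfl⟩
      exact hq.2.2 n
    · refine le_csInf ⟨_, _, hL 0, rfl⟩ ?_
      rintro _ ⟨q, hq, rfl⟩
      exact hc q hq
  have hdD : ∀ n, d n ≤ D n := fun n => hge n _ fun p hp' => hp'.2.2 n
  have hD2 : ∀ n, D n ≤ 2 * d n := fun n => by
    have h5 := hle n _ (hL n)
    simp only at h5
    rw [div_mul_cancel₀ _ (hp n).ne'] at h5
    linarith
  have hDm : ∀ n, D n ≤ D (n + 1) := fun n => hge (n + 1) _ fun p hp' => by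
    have h5 := hle n p hp'
    have h6 := mul_nonneg hp'.2.1 (hp n).le
    rw [pow_succ]
    linarith
  have hD1 : D 1 ≤ 4 * D 0 := by
    have : D 1 / 4 ≤ D 0 := hge 0 _ fun p hp' => by
      have h5 := hle 1 p hp'
      have h6 := hp'.1
      rw [pow_one] at h5
      rw [pow_zero]
      linarith
    linarith
  have hcc : ∀ n, 4 * D n + D (n + 2) ≤ 5 * D (n + 1) := fun n => by
    have : (4 * D n + D (n + 2)) / 5 ≤ D (n + 1) := hge (n + 1) _ fun p hp' => by
      have h5 := hle n p hp'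
      have h6 := hle (n + 2) p hp'
      rw [pow_add] at h6 ⊢
      linarith
    linarith
  let s : ℕ → ℝ := fun n => (D (n + 1) - D n) / (3 * 4 ^ n)
  have hs : ∀ n, D (n + 1) = D n + 3 * 4 ^ n * s n := fun n => by
    have := (hp n).ne'
    simp only [s]
    field_simp
    ring
  have hs0 : ∀ n, 0 ≤ s n := fun n => div_nonneg (sub_nonneg.2 (hDm n)) (by positivity)
  have hsa : ∀ n, s (n + 1) ≤ s n := fun n => by
    have h5 := hs n
    have h6 := hs (n + 1)
    have h7 := hcc n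
    rw [pow_succ] at h6
    refine le_of_mul_le_mul_left ?_ (hp n)
    linarith
  have hsA : Antitone s := antitone_nat_of_succ_le hsa
  have hup : ∀ n i, D (n + 1 + i) ≤ D (n + 1) + s n * (4 ^ (n + 1 + i) - 4 ^ (n + 1)) := by
    intro n i
    induction i with
    | zero => simp
    | succ i ih =>
      have h5 := hs (n + 1 + i)
      have h6 := mul_le_mul_of_nonneg_left (hsA (show n ≤ n + 1 + i by omega)) (hp (n + 1 + i)).le
      rw [← add_assoc, pow_succ _ (n + 1 + i)]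
      linarith
  refine ⟨D, s, hs, hs0, hsa, ?_, hdD, hD2, fun n => ?_⟩
  · have h5 := hs 0
    rw [pow_zero, zero_add] at h5
    linarith
  · by_contra hcon
    rw [not_le] at hcon
    obtain ⟨m, hm'⟩ : ∃ m : ℝ, D (n + 1) - d n = m * 4 ^ (n + 1) :=
      ⟨(D (n + 1) - d n) / 4 ^ (n + 1), (div_mul_cancel₀ _ (hp (n + 1)).ne').symm⟩
    have h5 := hs n
    have h6 : s n < m := by
      refine lt_of_mul_lt_mul_left ?_ (hp n).le
      rw [pow_succ] at hm'
      linarith
    have h7 : (d n, m) ∈ L := by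
      refine ⟨(hd n).le, (hs0 n).trans h6.le, fun k => ?_⟩
      simp only
      rcases le_or_gt k n with h | h
      · have := mul_nonneg ((hs0 n).trans h6.le) (hp k).le
        have := hm h
        linarith
      · obtain ⟨i, rfl⟩ := Nat.exists_eq_add_of_le (Nat.succ_le_of_lt h)
        have h8 := hup n i
        have h9 : (0 : ℝ) ≤ 4 ^ (n + 1 + i) - 4 ^ (n + 1) :=
          sub_nonneg.2 (pow_le_pow_right₀ (by norm_num) (Nat.le_add_right _ _))
        have h10 := mul_le_mul_of_nonneg_right h6.le h9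
        have h11 := hdD (n + 1 + i)
        simp only [Nat.succ_eq_add_one]
        linarith
    have h8 := hle n _ h7
    have h9 := mul_lt_mul_of_pos_left h6 (hp n)
    simp only at h8
    rw [pow_succ] at hm'
    linarith

theorem tel_Maj {s : ℕ → ℝ} {σ : ℝ} (h : ∀ n, s (n + 1) ≤ s n) (ht : Tendsto s atTop (𝓝 σ))
    (n : ℕ) : HasSum (fun j => s (j + n) - s (j + 1 + n)) (s n - σ) := by
  refine (hasSum_iff_tendsto_nat_of_nonneg (fun j => ?_) _).2 ?_
  · rw [add_right_comm]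
    exact sub_nonneg.2 (h _)
  · simp only [Finset.sum_range_sub' fun j => s (j + n), zero_add]
    exact tendsto_const_nhds.sub (ht.comp (tendsto_add_atTop_nat n))

theorem sMaj (h0 : SMaj0) : SMaj := by
  intro d d0 d1 d2
  obtain ⟨D, s, e, s0, s1, s2, b1, b2, b3⟩ := h0 d d0 d1 d2
  have ht : Tendsto s atTop (𝓝 (⨅ n, s n)) :=
    tendsto_atTop_ciInf (antitone_nat_of_succ_le s1) ⟨0, by rintro _ ⟨n, rfl⟩; exact s0 n⟩
  obtain ⟨a, a0, a1⟩ : ∃ a : ℕ → ℝ, a 0 = D 0 - s 0 ∧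
      ∀ j, a (j + 1) = (s j - s (j + 1)) * 4 ^ (j + 1) :=
    ⟨fun j => Nat.casesOn j (D 0 - s 0) fun j => (s j - s (j + 1)) * 4 ^ (j + 1), rfl,
      fun _ => rfl⟩
  have h1 : ∀ n, ∑ j ∈ Finset.range (n + 1), a j = D n - 4 ^ n * s n := fun n => by
    induction n with
    | zero => simp [a0]
    | succ n ih => rw [Finset.sum_range_succ, ih, a1, e]; ring
  have h2 : ∀ n, DD (⨅ n, s n) a n = D n := fun n => by
    have t : HasSum (fun j => a (j + (n + 1)) * min 1 ((4 : ℝ) ^ n / 4 ^ (j + (n + 1))))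
        (4 ^ n * (s n - ⨅ n, s n)) := by
      have t0 : ∀ j, a (j + (n + 1)) * min 1 ((4 : ℝ) ^ n / 4 ^ (j + (n + 1))) =
          4 ^ n * (s (j + n) - s (j + 1 + n)) := fun j => by
        rw [min_eq_right, ← add_assoc, a1, add_right_comm j 1 n]
        · field_simp
        · rw [div_le_one (by positivity)]
          exact pow_le_pow_right₀ (by norm_num) (by omega)
      simp only [t0]
      exact (tel_Maj s1 ht n).mul_left (4 ^ n)
    have u := (hasSum_nat_add_iff (f := fun j => a j * min 1 ((4 : ℝ) ^ n / 4 ^ j)) (n + 1)).1 t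
    rw [DD, u.tsum_eq, Finset.sum_congr rfl (g := a) fun j hj => ?_, h1]
    · ring
    · rw [min_eq_left, mul_one]
      rw [one_le_div (by positivity)]
      exact pow_le_pow_right₀ (by norm_num) (Nat.lt_succ_iff.1 (Finset.mem_range.1 hj))
  have h3 : ∀ N, 3 * ∑ n ∈ Finset.range N, 4 ^ n * s n = D N - D 0 := fun N => by
    induction N with
    | zero => simp
    | succ N ih => rw [Finset.sum_range_succ, mul_add, ih, e]; ring
  refine ⟨⨅ n, s n, a, ge_of_tendsto' ht s0, fun j => ?_, ?_, fun n => (h2 n).symm ▸ b1 n,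
    fun N => ?_⟩
  · rcases j with _ | j
    · rw [a0]; exact sub_nonneg.2 s2
    · rw [a1]; exact mul_nonneg (sub_nonneg.2 (s1 j)) (by positivity)
  · refine (summable_nat_add_iff 1).1 ((tel_Maj s1 ht 0).summable.congr fun j => ?_)
    rw [a1, mul_div_assoc, div_self (by positivity), mul_one, add_zero, add_zero]
  · simp only [h2]
    have := Finset.sum_le_sum fun n (_ : n ∈ Finset.range N) => b3 n
    linarith [h3 N, s0 0, b1 N, b2 N]

theorem term_Est {u v : ℝ} (hu : 0 < u) (hv : 0 < v) :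
    min 1 (u / v) ≤ 2 * (u / (u + v)) ∧ u / (u + v) ≤ min 1 (u / v) ∧
      min 1 (u / v) - u / (u + v) ≤ 2 * (4 * u / (4 * u + v) - u / (u + v)) := by
  have h1 : 0 < u + v := by positivity
  have h2 : 0 < 4 * u + v := by positivity
  refine ⟨?_, le_min ((div_le_one h1).2 (by linarith)) (by gcongr; linarith), ?_⟩
  · rcases le_total u v with h | h
    · refine (min_le_right _ _).trans ?_
      rw [← mul_div_assoc, div_le_div_iff₀ hv h1]
      nlinarith
    · refine (min_le_left _ _).trans ?_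
      rw [← mul_div_assoc, le_div_iff₀ h1]
      linarith
  · have e : 2 * (4 * u / (4 * u + v) - u / (u + v)) = 6 * u * v / ((4 * u + v) * (u + v)) := by
      field_simp
      ring
    rw [e]
    rcases le_total u v with h | h
    · refine (sub_le_sub_right (min_le_right _ _) _).trans ?_
      rw [div_sub_div _ _ hv.ne' h1.ne', div_le_div_iff₀ (by positivity) (by positivity)]
      have : u * (4 * u + v) ≤ 6 * v * v := by nlinarith
      nlinarith [mul_le_mul_of_nonneg_left this (mul_pos hu h1).le]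
    · refine (sub_le_sub_right (min_le_left _ _) _).trans ?_
      rw [one_sub_div h1.ne', div_le_div_iff₀ h1 (by positivity)]
      nlinarith [mul_nonneg (mul_pos hv h1).le (show 0 ≤ 2 * u - v by linarith)]

theorem sum_Est {a : ℕ → ℝ} (ha : ∀ j, 0 ≤ a j) (hs : Summable fun j => a j / 4 ^ j) {X : ℝ}
    (hX : 0 < X) : Summable (fun j => a j * min 1 (X / 4 ^ j)) ∧
      Summable fun j => a j * (X / (X + 4 ^ j)) := by
  have h : Summable fun j => a j * min 1 (X / 4 ^ j) :=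
    Summable.of_nonneg_of_le (fun j => mul_nonneg (ha j) (by positivity))
      (fun j => (mul_le_mul_of_nonneg_left (min_le_right _ _) (ha j)).trans_eq (by ring))
      (hs.mul_left X)
  exact ⟨h, Summable.of_nonneg_of_le (fun j => mul_nonneg (ha j) (by positivity))
    (fun j => mul_le_mul_of_nonneg_left (term_Est hX (by positivity)).2.1 (ha j)) h⟩

theorem sEst : SEst := by
  intro σ a hσ ha hs n
  have hu : (0 : ℝ) < 4 ^ n := by positivity
  obtain ⟨s1, s2⟩ := sum_Est ha hs hu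
  have s3 := (sum_Est ha hs (show (0 : ℝ) < 4 * 4 ^ n by positivity)).2
  have t := fun j : ℕ => term_Est hu (show (0 : ℝ) < 4 ^ j by positivity)
  have h1 := s1.tsum_le_tsum (fun j => (mul_le_mul_of_nonneg_left (t j).1 (ha j)).trans_eq
    (mul_left_comm _ _ _)) (s2.mul_left 2)
  have h2 := s2.tsum_le_tsum (fun j => mul_le_mul_of_nonneg_left (t j).2.1 (ha j)) s1
  have h3 := (s1.sub s2).tsum_le_tsum (fun j => by
    have := mul_le_mul_of_nonneg_left (t j).2.2 (ha j)
    linarith) ((s3.sub s2).mul_left 2)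
  rw [tsum_mul_left] at h1 h3
  rw [s1.tsum_sub s2, s3.tsum_sub s2] at h3
  have h4 := mul_nonneg hσ hu.le
  rw [DD, ps, ps, pow_succ']
  exact ⟨by linarith, by linarith, by linarith⟩

theorem re_Her {w : ℂ} (hw : 0 < w.re) {Y : ℝ} (hY : 0 ≤ Y) : w.re ≤ (w + Y / w).re := by
  rw [add_re, div_re, ofReal_re, ofReal_im, zero_mul, zero_div, add_zero]
  have := div_nonneg (mul_nonneg hY hw.le) (normSq_nonneg w)
  linarith

theorem fac_Her {w : ℂ} (hw : 0 < w.re) (Y : ℝ) : w ^ 2 + Y = w * (w + Y / w) := by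
  have : w ≠ 0 := fun h => by simp [h] at hw
  field_simp

theorem low_Her {w : ℂ} (hw : 0 < w.re) {Y : ℝ} (hY : 0 ≤ Y) : ‖w‖ * w.re ≤ ‖w ^ 2 + Y‖ := by
  rw [fac_Her hw, norm_mul]
  exact mul_le_mul_of_nonneg_left ((re_Her hw hY).trans (re_le_norm _)) (norm_nonneg _)

theorem ne_Her {w : ℂ} (hw : 0 < w.re) {Y : ℝ} (hY : 0 ≤ Y) : w ^ 2 + Y ≠ 0 :=
  norm_pos_iff.1 ((mul_pos (hw.trans_le (re_le_norm w)) hw).trans_le (low_Her hw hY))

theorem pos_Her {w : ℂ} (hw : 0 < w.re) {Y : ℝ} (hY : 0 ≤ Y) : 0 ≤ (w / (w ^ 2 + Y)).re := by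
  have h0 : w ≠ 0 := fun h => by simp [h] at hw
  rw [fac_Her hw, div_mul_cancel_left₀ h0, inv_re]
  exact div_nonneg (hw.le.trans (re_Her hw hY)) (normSq_nonneg _)

theorem bd_Her {w : ℂ} {e R Y : ℝ} (he : 0 < e) (hw : e ≤ w.re) (hR : ‖w‖ ≤ R) (hY : 0 < Y) :
    ‖w / (w ^ 2 + Y)‖ ≤ R * (1 + R / e) / Y := by
  have h0 : 0 < w.re := he.trans_le hw
  have h1 := low_Her h0 hY.le
  have h2 : 0 < ‖w ^ 2 + Y‖ := norm_pos_iff.2 (ne_Her h0 hY.le)
  have h3 : Y ≤ ‖w ^ 2 + Y‖ + ‖w‖ * ‖w‖ := by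
    have := norm_sub_le (w ^ 2 + Y) (w ^ 2)
    rwa [add_sub_cancel_left, norm_real, Real.norm_of_nonneg hY.le, norm_pow, sq ‖w‖] at this
  have h4 : ‖w‖ ≤ ‖w ^ 2 + Y‖ / e := by
    rw [le_div_iff₀ he]
    exact (mul_le_mul_of_nonneg_left hw (norm_nonneg _)).trans h1
  have h5 : ‖w‖ * ‖w‖ ≤ R * (‖w ^ 2 + Y‖ / e) :=
    mul_le_mul hR h4 (norm_nonneg _) ((norm_nonneg _).trans hR)
  rw [norm_div, div_le_div_iff₀ h2 hY]
  calc ‖w‖ * Y ≤ R * (‖w ^ 2 + Y‖ + R * (‖w ^ 2 + Y‖ / e)) :=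
        mul_le_mul hR (by linarith) hY.le ((norm_nonneg _).trans hR)
    _ = _ := by ring

theorem sHer : SHer := by
  intro σ a hσ ha hs
  have p4 : ∀ j : ℕ, (0 : ℝ) < 4 ^ j := fun j => by positivity
  have bd : ∀ {e R : ℝ}, 0 < e → ∀ (j : ℕ) (w : ℂ), e ≤ w.re → ‖w‖ ≤ R →
      ‖(a j : ℂ) * (w / (w ^ 2 + ((4 ^ j : ℝ) : ℂ)))‖ ≤ R * (1 + R / e) * (a j / 4 ^ j) := by
    intro e R he j w hw hR
    rw [norm_mul, norm_real, Real.norm_of_nonneg (ha j)]
    refine (mul_le_mul_of_nonneg_left (bd_Her he hw hR (p4 j)) (ha j)).trans (le_of_eq ?_)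
    ring
  refine ⟨fun w => σ * w + ∑' j : ℕ, (a j : ℂ) * (w / (w ^ 2 + ((4 ^ j : ℝ) : ℂ))),
    ⟨fun z hz => ?_, fun w hw => ?_⟩, fun x hx => ⟨?_, ?_⟩⟩
  · have hz' : 0 < z.re := hz
    have hU : IsOpen ({w : ℂ | z.re / 2 < w.re} ∩ ball 0 (‖z‖ + 1)) :=
      (isOpen_lt continuous_const continuous_re).inter isOpen_ball
    have hd := differentiableOn_tsum_of_summable_norm
      (F := fun (j : ℕ) (w : ℂ) => (a j : ℂ) * (w / (w ^ 2 + ((4 ^ j : ℝ) : ℂ))))
      (hs.mul_left ((‖z‖ + 1) * (1 + (‖z‖ + 1) / (z.re / 2))))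
      (fun j => (differentiableOn_const _).mul (differentiableOn_id.div (by fun_prop)
        fun w hw => ne_Her ((half_pos hz').trans hw.1) (p4 j).le)) hU
      fun j w hw => bd (half_pos hz') j w hw.1.le (mem_ball_zero_iff.1 hw.2).le
    have h1 := hd.differentiableAt (hU.mem_nhds
      ⟨half_lt_self hz', mem_ball_zero_iff.2 (lt_add_one _)⟩)
    exact ((differentiableAt_id.const_mul _).add h1).differentiableWithinAt
  · have hw' : 0 < w.re := hw
    have h1 : Summable fun j : ℕ => (a j : ℂ) * (w / (w ^ 2 + ((4 ^ j : ℝ) : ℂ))) :=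
      (hs.mul_left _).of_norm_bounded fun j => bd hw' j w le_rfl le_rfl
    rw [add_re, re_ofReal_mul, re_tsum h1]
    refine add_nonneg (mul_nonneg hσ hw'.le) (tsum_nonneg fun j => ?_)
    rw [re_ofReal_mul]
    exact mul_nonneg (ha j) (pos_Her hw' (p4 j).le)
  · have e : ps σ a (x ^ 2) / x = σ * x + ∑' j : ℕ, a j * (x / (x ^ 2 + 4 ^ j)) := by
      rw [ps, add_div, ← tsum_div_const]
      congr 1
      · field_simp
      · refine tsum_congr fun j => ?_
        have := p4 j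
        field_simp
    rw [e, ofReal_add, ofReal_tsum]
    simp only [ofReal_mul, ofReal_div, ofReal_add, ofReal_pow x]
  · exact add_nonneg (mul_nonneg hσ (sq_nonneg x)) (tsum_nonneg fun j =>
      mul_nonneg (ha j) (div_nonneg (sq_nonneg x) (add_nonneg (sq_nonneg x) (p4 j).le)))

theorem mono_Seq {c : ℝ → ℝ} (h : Adm c) : MonotoneOn c (Ici 0) := fun s hs u _ hsu => by
  obtain ⟨v, h1, h2⟩ := ((h.top.eventually_ge_atTop (c s)).and (eventually_ge_atTop u)).exists
  have hv : v ∈ Ici (0 : ℝ) := le_trans hs (hsu.trans h2)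
  have := h.conc.ge_on_segment hs hv (Icc_subset_segment ⟨hsu, h2⟩)
  rwa [min_eq_left h1] at this

theorem exp_Seq (n : ℕ) : Real.exp (4 * (n * Real.log 2 / 2)) = 4 ^ n := by
  rw [show 4 * (n * Real.log 2 / 2) = ((2 * n : ℕ) : ℝ) * Real.log 2 by push_cast; ring,
    Real.exp_nat_mul, Real.exp_log two_pos, pow_mul]
  norm_num

theorem small_Seq {c : ℝ → ℝ} (h : Adm c) : ∃ u : ℝ, 0 < u ∧ c u ≤ Real.log 2 / 2 := by
  have hE : 0 < Real.exp (4 * c 1) := Real.exp_pos _
  obtain ⟨u, hu⟩ : ∃ u : ℝ, u = 1 / (Real.exp (4 * c 1) + 1) := ⟨_, rfl⟩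
  have h0 : 0 < u := by
    rw [hu]
    positivity
  have h1 : u * (Real.exp (4 * c 1) + 1) = 1 := by
    rw [hu]
    field_simp
  have h2 := h.conv.2 (mem_Ici.2 (le_refl (0 : ℝ))) (mem_Ici.2 (zero_le_one' ℝ))
    (show 0 ≤ 1 - u by nlinarith) h0.le (by ring)
  simp only [smul_eq_mul, mul_zero, mul_one, zero_add, h.zero, Real.exp_zero] at h2
  have h3 := exp_Seq 1
  have h4 : Real.exp (4 * c u) ≤ Real.exp (4 * (((1 : ℕ) : ℝ) * Real.log 2 / 2)) := by
    rw [h3]
    nlinarith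
  have h5 := Real.exp_le_exp.1 h4
  refine ⟨u, h0, ?_⟩
  push_cast at h5
  linarith

theorem node_Seq {c : ℝ → ℝ} (h : Adm c) (n : ℕ) :
    ∃ x : ℝ, 0 ≤ x ∧ c x = n * Real.log 2 / 2 ∧ (n = 0 → x = 0) := by
  rcases Nat.eq_zero_or_pos n with rfl | hn
  · exact ⟨0, le_rfl, by simp [h.zero], fun _ => rfl⟩
  obtain ⟨u, hu, hc⟩ := small_Seq h
  obtain ⟨v, h1, h2⟩ :=
    ((h.top.eventually_ge_atTop (n * Real.log 2 / 2)).and (eventually_ge_atTop u)).exists
  have hcont : ContinuousOn c (Icc u v) :=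
    ((h.conc.subset Ioi_subset_Ici_self (convex_Ioi 0)).continuousOn isOpen_Ioi).mono
      fun x hx => lt_of_lt_of_le hu hx.1
  have hl : 0 < Real.log 2 := Real.log_pos one_lt_two
  have h3 : (1 : ℝ) ≤ n := by exact_mod_cast hn
  obtain ⟨x, hx, e⟩ := intermediate_value_Icc h2 hcont (a := u)
    (show n * Real.log 2 / 2 ∈ Icc (c u) (c v) from ⟨by nlinarith, h1⟩)
  exact ⟨x, hu.le.trans hx.1, e, fun h0 => absurd h0 hn.ne'⟩

theorem sSeq : SSeq := by
  intro c h
  have hm := mono_Seq h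
  choose t h0 h1 h2 using node_Seq h
  have hl : 0 < Real.log 2 := Real.log_pos one_lt_two
  have hs : ∀ n, t n < t (n + 1) := fun n => by
    by_contra hn
    have := hm (h0 (n + 1)) (h0 n) (not_lt.1 hn)
    rw [h1, h1] at this
    push_cast at this
    nlinarith
  refine ⟨hm, t, h2 0 rfl, hs 0, h1, fun n => ?_, fun n => ?_⟩
  · have a := sub_pos.2 (hs n)
    have b := sub_pos.2 (hs (n + 1))
    have e := h.conc.slope_anti_adjacent (h0 n) (h0 (n + 2)) (hs n) (hs (n + 1))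
    rw [h1, h1, h1, div_le_div_iff₀ b a] at e
    push_cast at e
    refine le_of_mul_le_mul_left ?_ (half_pos hl)
    linarith
  · have a := sub_pos.2 (hs n)
    have b := sub_pos.2 (hs (n + 1))
    have e := h.conv.slope_mono_adjacent (h0 n) (h0 (n + 2)) (hs n) (hs (n + 1))
    simp only [h1, exp_Seq] at e
    rw [div_le_div_iff₀ a b, pow_succ, pow_succ, pow_succ] at e
    refine le_of_mul_le_mul_left ?_ (show (0 : ℝ) < 3 * 4 ^ n by positivity)
    linarith

theorem seq_Gen (t d D p T : ℕ → ℝ) (L : ℝ) (hL : 0 < L) (ht0 : t 0 = 0)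
    (hd : ∀ n, L * d n = t (n + 1) - t n) (hd0 : 0 < d 0) (hdD : ∀ n, d n ≤ D n)
    (hs : ∀ N, ∑ n ∈ Finset.range N, (D n - d n) ≤ d N) (hp0 : 0 ≤ p 0)
    (h2 : ∀ n, p n ≤ D n) (h3 : ∀ n, D n - p n ≤ 2 * (p (n + 1) - p n)) (hT0 : T 0 = 0)
    (hlo : ∀ n, T n + L * p n ≤ T (n + 1)) (hup : ∀ n, T (n + 1) ≤ T n + L * p (n + 1)) (N : ℕ) :
    T N ≤ t (N + 2) ∧ t N ≤ T (N + 2) := by
  have hsum : ∀ N, L * ∑ n ∈ Finset.range N, d n = t N := by
    intro N
    induction N with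
    | zero => simp [ht0]
    | succ k ih => rw [Finset.sum_range_succ, mul_add, ih, hd]; ring
  have hU : ∀ N, T N ≤ L * ∑ n ∈ Finset.range (N + 1), D n := by
    intro N
    induction N with
    | zero =>
      have := hdD 0
      simp only [hT0, zero_add, Finset.range_one, Finset.sum_singleton]
      exact mul_nonneg hL.le (by linarith)
    | succ k ih =>
      rw [Finset.sum_range_succ, mul_add]
      have h1 := hup k
      have h4 := mul_le_mul_of_nonneg_left (h2 (k + 1)) hL.le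
      linarith
  have hLo : ∀ N, L * ∑ n ∈ Finset.range N, p n ≤ T N := by
    intro N
    induction N with
    | zero => simp [hT0]
    | succ k ih =>
      rw [Finset.sum_range_succ, mul_add]
      have h1 := hlo k
      linarith
  have hP : ∀ N, ∑ n ∈ Finset.range N, d n ≤ ∑ n ∈ Finset.range N, p n + 2 * (p N - p 0) := by
    intro N
    induction N with
    | zero => simp
    | succ k ih =>
      rw [Finset.sum_range_succ, Finset.sum_range_succ]
      have h1 := h3 k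
      have h4 := hdD k
      linarith
  constructor
  · have h1 := hs (N + 1)
    rw [Finset.sum_sub_distrib] at h1
    have h4 : ∑ n ∈ Finset.range (N + 1), D n ≤ ∑ n ∈ Finset.range (N + 2), d n := by
      rw [Finset.sum_range_succ d (N + 1)]
      linarith
    have h5 := mul_le_mul_of_nonneg_left h4 hL.le
    have h6 := hsum (N + 2)
    have h7 := hU N
    linarith
  · have h1 := hP N
    have h4 : ∑ n ∈ Finset.range N, d n ≤ ∑ n ∈ Finset.range (N + 2), p n := by
      rw [Finset.sum_range_succ p (N + 1), Finset.sum_range_succ p N]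
      have h5 := h2 N
      have h6 := h3 N
      linarith
    have h5 := mul_le_mul_of_nonneg_left h4 hL.le
    have h6 := hsum N
    have h7 := hLo (N + 2)
    linarith

theorem sGen (hb : STb) (hj : SMaj) (he : SEst) (hh : SHer) : SGen := by
  intro t ht0 ht1 hmono h4
  have hL : 0 < Real.log 2 := Real.log_pos (by norm_num)
  obtain ⟨σ, a, hσ, ha, hsum, hdD, hs⟩ := hj (fun n => (t (n + 1) - t n) / Real.log 2)
    (div_pos (by simpa using ht1) hL)
    (fun n => div_le_div_of_nonneg_right (hmono n) hL.le)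
    (fun n => by
      have := div_le_div_of_nonneg_right (h4 n) hL.le
      rw [mul_div_assoc] at this
      exact this)
  obtain ⟨g, hg, hx⟩ := hh σ a hσ ha hsum
  have hE := he σ a hσ ha hsum
  have hnorm : ∀ x : ℝ, 0 < x → ‖g x‖ = ps σ a (x ^ 2) / x := by
    intro x h0
    rw [(hx x h0).1, Complex.norm_real, Real.norm_eq_abs,
      abs_of_nonneg (div_nonneg (hx x h0).2 h0.le)]
  have hmm : ∀ n : ℕ, mm g (2 ^ n) = ps σ a (4 ^ n) := by
    intro n
    have h0 : (0 : ℝ) < 2 ^ n := by positivity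
    have h1 : ((2 : ℝ) ^ n) ^ 2 = 4 ^ n := by
      rw [← pow_mul, mul_comm, pow_mul]; norm_num
    unfold mm
    rw [hnorm _ h0, h1]
    field_simp
  have hd0 : 0 < (t (0 + 1) - t 0) / Real.log 2 := div_pos (by simpa using ht1) hL
  have hp0 : 0 < ps σ a (4 ^ 0) := by
    have h1 := (hE 0).1
    have h2 := hdD 0
    linarith
  refine ⟨g, hg, ?_, ?_, ?_⟩
  · intro w hw
    refine lt_of_le_of_ne (hg.nonneg w hw) fun h0 => ?_
    have h1 : ((1 : ℝ) : ℂ) ∈ RH := by simp [mem_RH]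
    have h2 := hg.flat hw h0.symm h1
    have h3 := congrArg Complex.re h2
    rw [← h0, (hx 1 one_pos).1, Complex.ofReal_re] at h3
    simp only [pow_zero] at hp0
    simp only [one_pow, div_one] at h3
    exact hp0.ne' h3
  · intro x h0
    rw [hnorm x h0]
    exact (hx x h0).1
  · intro N
    have hstep : ∀ n : ℕ, TT g (2 ^ n) + Real.log 2 * ps σ a (4 ^ n) ≤ TT g (2 ^ (n + 1)) ∧
        TT g (2 ^ (n + 1)) ≤ TT g (2 ^ n) + Real.log 2 * ps σ a (4 ^ (n + 1)) := by
      intro n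
      have h1 := hb g hg (2 ^ n) 2 (one_le_pow₀ (by norm_num)) (by norm_num)
      have h2 : (2 : ℝ) * 2 ^ n = 2 ^ (n + 1) := by ring
      rw [h2, hmm, hmm] at h1
      exact h1
    exact seq_Gen t (fun n => (t (n + 1) - t n) / Real.log 2) (DD σ a) (fun n => ps σ a (4 ^ n))
      (fun n => TT g (2 ^ n)) (Real.log 2) hL ht0 (fun n => by field_simp) hd0 hdD hs hp0.le
      (fun n => (hE n).2.1) (fun n => (hE n).2.2) (by simp [TT]) (fun n => (hstep n).1)
      (fun n => (hstep n).2) N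

theorem sReal : SReal := by
  intro g h hg hp hx r hr
  have hmem : ∀ x ∈ uIcc (1 : ℝ) r, 0 < x := by
    intro x hxm
    rw [uIcc_of_le hr] at hxm
    linarith [hxm.1]
  have hRH : ∀ x ∈ uIcc (1 : ℝ) r, (x : ℂ) ∈ RH := fun x hxm => by
    simpa [mem_RH] using hmem x hxm
  have hc : ContinuousOn (fun x : ℝ => g x) (uIcc (1 : ℝ) r) :=
    hg.diff.continuousOn.comp Complex.continuous_ofReal.continuousOn hRH
  have h1 : ∫ x in (1 : ℝ)..r, g x = h r - h (1 : ℝ) :=
    intervalIntegral.integral_eq_sub_of_hasDerivAt (f := fun x : ℝ => h x)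
      (fun x hxm => (hp _ (hRH x hxm)).comp_ofReal) hc.intervalIntegrable
  have h2 : ∫ x in (1 : ℝ)..r, g x = ∫ x in (1 : ℝ)..r, ((‖g x‖ : ℝ) : ℂ) :=
    intervalIntegral.integral_congr fun x hxm => hx x (hmem x hxm)
  rw [intervalIntegral.integral_ofReal] at h2
  unfold TT
  rw [← h2, h1]
  simp

theorem grow_Cmp {t : ℕ → ℝ} (h0 : t 0 = 0)
    (hc : ∀ n, t (n + 1) - t n ≤ t (n + 2) - t (n + 1)) (n : ℕ) :
    t 1 ≤ t (n + 1) - t n ∧ n * t 1 ≤ t n := by
  induction n with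
  | zero => simp [h0]
  | succ n ih =>
    refine ⟨ih.1.trans (hc n), ?_⟩
    push_cast
    linarith [ih.1, ih.2]

theorem sCmp : SCmp := by
  intro c T t hc hT h0 h1 hcv hct hN r hr hTr
  have hδ : 0 < t 1 := h0 ▸ h1
  have ht0 : ∀ n, 0 ≤ t n := fun n =>
    (mul_nonneg (Nat.cast_nonneg n) hδ.le).trans (grow_Cmp h0 hcv n).2
  have hex : ∃ n, T r < t n := by
    obtain ⟨n, hn⟩ := exists_nat_gt (T r / t 1)
    exact ⟨n, ((div_lt_iff₀ hδ).1 hn).trans_le (grow_Cmp h0 hcv n).2⟩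
  classical
  obtain ⟨N, hN1, hN2⟩ : ∃ N, t N ≤ T r ∧ T r < t (N + 1) := by
    have hs := Nat.find_spec hex
    have hne : Nat.find hex ≠ 0 := fun h => by
      rw [h, h0] at hs
      linarith
    obtain ⟨N, hN'⟩ := Nat.exists_eq_succ_of_ne_zero hne
    refine ⟨N, not_lt.1 (Nat.find_min hex (by omega)), ?_⟩
    rw [hN'] at hs
    exact hs
  have c1 : (N : ℝ) * Real.log 2 / 2 ≤ c (T r) := by
    rw [← hct N]
    exact hc (ht0 N) hTr hN1
  have c2 : c (T r) ≤ ((N : ℝ) + 1) * Real.log 2 / 2 := by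
    have := hc hTr (ht0 (N + 1)) hN2.le
    rw [hct (N + 1)] at this
    push_cast at this
    exact this
  have l0 : 0 < Real.log 2 := Real.log_pos (by norm_num)
  have l1 : Real.log 2 < 1 := by linarith [Real.log_two_lt_d9]
  have hp : ∀ k : ℕ, (2 : ℝ) ^ k ∈ Ici (1 : ℝ) := fun k => mem_Ici.2 (one_le_pow₀ one_le_two)
  have hr0 : 0 < r := lt_of_lt_of_le one_pos hr
  have u1 : Real.log r ≤ ((N : ℝ) + 3) * Real.log 2 := by
    have h2 : r < 2 ^ (N + 1 + 2) := (hT.lt_iff_lt hr (hp _)).1 (hN2.trans_le (hN (N + 1)).2)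
    have h3 := Real.log_le_log hr0 h2.le
    rw [Real.log_pow] at h3
    push_cast at h3
    linarith
  have u2 : ((N : ℝ) - 2) * Real.log 2 ≤ Real.log r := by
    rcases Nat.lt_or_ge N 2 with h | h
    · have h2 : (N : ℝ) ≤ 2 := by exact_mod_cast h.le
      have h3 := Real.log_nonneg hr
      nlinarith
    · obtain ⟨M, rfl⟩ := Nat.exists_eq_add_of_le' h
      have h2 : (2 : ℝ) ^ M ≤ r := (hT.le_iff_le (hp _) hr).1 ((hN M).1.trans hN1)
      have h3 := Real.log_le_log (by positivity) h2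
      rw [Real.log_pow] at h3
      push_cast
      linarith
  rw [abs_le]
  constructor <;> nlinarith

theorem her_inv_Asm {P : ℂ → ℂ} (hP : Her P) (hn : Nz P) : Her fun z => (P z)⁻¹ :=
  ⟨hP.diff.inv hn, fun z hz => by
    rw [inv_re]
    exact div_nonneg (hP.nonneg z hz) (normSq_nonneg _)⟩

theorem nz_Asm {P : ℂ → ℂ} {w : ℝ → ℂ} (hP : Her P) (h : Orb P w)
    (ht : Tendsto (fun t => ‖w t‖) atTop atTop) : Nz P := by
  intro c hc h0
  have hz : ∀ z ∈ RH, P z = 0 := fun z hz => by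
    rw [hP.flat hc (by rw [h0, zero_re]) hz, h0]
  have e : ∀ t, 0 ≤ t → w t = w 0 := fun t h1 => by
    apply Complex.ext
    · exact eq_of_der (f := fun t => (w t).re) h1 fun r hr => by
        have := h.dre hr
        rwa [hz _ (h.mem r hr), zero_re] at this
    · exact eq_of_der (f := fun t => (w t).im) h1 fun r hr => by
        have := h.dim hr
        rwa [hz _ (h.mem r hr), zero_im] at this
  obtain ⟨t, h1, h2⟩ := ((ht.eventually_gt_atTop ‖w 0‖).and (eventually_ge_atTop 0)).exists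
  rw [e t h2] at h1
  exact lt_irrefl _ h1

theorem sFwd (hU : SUp) (hL : SLow) (hO : SOnto) (hI : SInv) : SFwd := by
  obtain ⟨K1, k1, hU⟩ := hU
  obtain ⟨K2, k2, hL⟩ := hL
  refine ⟨Real.log K1 + Real.log K2, fun φ τ hφ hτ => ?_⟩
  have b : (0 : ℂ) ∈ ball (0 : ℂ) 1 := mem_ball_self one_pos
  obtain ⟨P, hP, ho⟩ := exists_flow hφ hτ
  have h := ho 0 b
  obtain ⟨w, hw⟩ : ∃ w : ℝ → ℂ, w = fun t => cay τ (φ t 0) := ⟨_, rfl⟩
  have w0 : w 0 = 1 := by simp only [hw, hφ.zero 0 b, cay_zero hτ.1]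
  have ht := norm_tendsto hφ hτ b
  have hn := nz_Asm hP h ht
  rw [← hw] at h
  have hg := her_inv_Asm hP hn
  have gn : Nz fun z => (P z)⁻¹ := fun z hz => inv_ne_zero (hn z hz)
  obtain ⟨H, hH⟩ := exists_prim hg.diff
  have hre : ∀ s, 0 ≤ s → (H (w s)).re = (H 1).re + s := fun s hs => by
    have := eq_of_der (f := fun t => (H (w t)).re - t) hs fun r hr => by
      have h1 := (hH _ (h.mem r hr)).comp_hasDerivWithinAt r (h.der r hr)
      rw [inv_mul_cancel₀ (hn _ (h.mem r hr))] at h1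
      have h2 := (reCLM.hasFDerivAt.comp_hasDerivWithinAt r h1).sub (hasDerivWithinAt_id r _)
      exact h2.congr_deriv (by simp)
    simp only [w0] at this
    linarith
  obtain ⟨c, hc, hcv⟩ := hI _ hg gn
  obtain ⟨hs, hon⟩ := hO _ hg gn
  refine ⟨c, hc, fun t t0 => ?_⟩
  obtain ⟨r, r1, hr⟩ := hon t t0
  have e : cay τ (φ t 0) = w t := by rw [hw]
  have n1 : 1 ≤ ‖w t‖ := by
    have := h.re_le hP le_rfl t0
    rw [w0, one_re] at this
    exact this.trans (re_le_norm _)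
  have l1 := Real.log_nonneg k1
  have l2 := Real.log_nonneg k2
  have a1 : r ≤ K1 * ‖w t‖ := by
    have := hU _ H hg gn hH (w t) (h.mem t t0) n1
    rw [hre t t0] at this
    exact (hs.le_iff_le r1 (one_le_mul_of_one_le_of_one_le k1 n1)).1 (by linarith)
  have a2 : ‖w t‖ ≤ K2 * r := by
    rcases le_total ‖w t‖ K2 with q | q
    · nlinarith
    · have q1 : 1 ≤ ‖w t‖ / K2 := (one_le_div (by linarith)).2 q
      have := hL P w H hP hn h w0 hH hre t _ t0 q1 (by rw [mul_div_cancel₀ _ (by linarith)])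
      have q2 := (hs.le_iff_le q1 r1).1 (by rw [hr]; exact this)
      rw [div_le_iff₀ (by linarith)] at q2
      linarith
  have b1 := Real.log_le_log (by linarith) a1
  have b2 := Real.log_le_log (by linarith) a2
  rw [Real.log_mul (by linarith) (by linarith)] at b1 b2
  have hct := hcv r r1
  rw [hr] at hct
  rw [e, hct, abs_le]
  constructor <;> linarith

theorem sBwd (hS : SSeq) (hG : SGen) (hC : SCmp) (hR : SReal) (hO : SOnto) (hJ : SInj)
    (hK : SInvH) (hT : SStar) (hM : SSemi) (hW : SDW) : SBwd := by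
  intro c hc
  obtain ⟨hm, t, t0, t1, tc, ta, tb⟩ := hS c hc
  obtain ⟨g, hg, gp, gr, gT⟩ := hG t t0 t1 ta tb
  have gn : Nz g := fun z hz e => by
    have := gp z hz
    rw [e, zero_re] at this
    exact lt_irrefl _ this
  obtain ⟨H, hH⟩ := exists_prim hg.diff
  have inj := hJ g H hg.diff.continuousOn gp hH
  obtain ⟨op, k, kl, kd⟩ := hK g H gn hH inj
  have st := hT g H hg gn hH inj
  have Hd : DifferentiableOn ℂ H RH := fun z hz =>
    (hH z hz).differentiableAt.differentiableWithinAt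
  have kD : DifferentiableOn ℂ k (H '' RH) := by
    rintro _ ⟨z, hz, rfl⟩
    exact (kd z hz).differentiableAt.differentiableWithinAt
  obtain ⟨hs, hon⟩ := hO g hg gn
  refine ⟨_, hM H k Hd op kD kl st, hW H k Hd.continuousOn kl st, fun u u0 => ?_⟩
  obtain ⟨r, r1, hr⟩ := hon u u0
  have rm : (r : ℂ) ∈ RH := by
    rw [mem_RH, ofReal_re]
    linarith
  have e : k (H (cay 1 0) + u) = r := by
    rw [cay_zero norm_one, ← hr, ← hR g H hg hH gr r r1, kl _ rm]
  simp only [e, cay_cinv norm_one rm]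
  constructor
  · have : cinv 1 (r : ℂ) = (((r - 1) / (r + 1) : ℝ) : ℂ) := by
      simp [cinv]
    rw [this, ofReal_im]
  · have := hC c (TT g) t hm hs t0 t1 ta tc gT r r1 (by rw [hr]; exact u0)
    rw [hr] at this
    rwa [norm_real, Real.norm_of_nonneg (by linarith)]

end Pool.Agent.MP_0641e2_an.Ch
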