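import Mathlib
import Pool.Agent.MP_0641e2_an.Ch.St

/-! Every orthogonal speed is close to a model function: the steps. -/

open Complex Set Filter Topology Metric

namespace Pool.Agent.MP_0641e2_an.Ch

theorem core_Base {g : ℂ → ℂ} (hg : Her g) {a b : ℂ} (ha : a ∈ RH) (hb : b ∈ RH) :
    (‖g a‖ - ‖g b‖) ^ 2 * (a.re * b.re) ≤ ‖a - b‖ ^ 2 * (‖g a‖ * ‖g b‖) := by
  have h1 := sp_RH hg.diff hg.nonneg ha hb
  have h2 : (‖g a‖ - ‖g b‖) ^ 2 ≤ ‖g a - g b‖ ^ 2 := by
    rw [← sq_abs]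
    exact pow_le_pow_left₀ (abs_nonneg _) (abs_norm_sub_norm_le _ _) 2
  have h3 : (g a).re * (g b).re ≤ ‖g a‖ * ‖g b‖ :=
    mul_le_mul (re_le_norm _) (re_le_norm _) (hg.nonneg b hb) (norm_nonneg _)
  exact (mul_le_mul_of_nonneg_right h2 (mul_pos (mem_RH.1 ha) (mem_RH.1 hb)).le).trans
    (h1.trans (mul_le_mul_of_nonneg_left h3 (sq_nonneg _)))

theorem sDer : SDer := by
  intro g hg w hw
  have hn : RH ∈ 𝓝 w := isOpen_RH.mem_nhds hw
  have hd : DifferentiableAt ℂ g w := (hg.diff w hw).differentiableAt hn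
  have t1 : Tendsto (slope g w) (𝓝[≠] w) (𝓝 (deriv g w)) :=
    hasDerivAt_iff_tendsto_slope.1 hd.hasDerivAt
  have t2 : Tendsto (fun b : ℂ => b.re) (𝓝[≠] w) (𝓝 w.re) :=
    (continuous_re.tendsto w).mono_left nhdsWithin_le_nhds
  have t3 : Tendsto (fun b : ℂ => (g b).re) (𝓝[≠] w) (𝓝 (g w).re) :=
    ((continuous_re.tendsto _).comp hd.continuousAt).mono_left nhdsWithin_le_nhds
  have h : ‖deriv g w‖ ^ 2 * (w.re * w.re) ≤ (g w).re * (g w).re := by
    refine le_of_tendsto_of_tendsto ((t1.norm.pow 2).mul (t2.mul_const w.re))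
      (t3.mul_const (g w).re) ?_
    filter_upwards [self_mem_nhdsWithin, mem_nhdsWithin_of_mem_nhds hn] with b hb hb'
    have h0 : 0 < ‖b - w‖ := norm_pos_iff.2 (sub_ne_zero.2 hb)
    have h1 := sp_RH hg.diff hg.nonneg hb' hw
    rw [slope_def_field, norm_div, div_pow, div_mul_eq_mul_div, div_le_iff₀ (pow_pos h0 2)]
    linarith
  refine (sq_le_sq₀ (mul_nonneg (norm_nonneg _) (mem_RH.1 hw).le) (hg.nonneg w hw)).1 ?_
  linarith

theorem sHar : SHar := by
  intro g hg a ha b hb L hL h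
  have hp := mul_pos (mem_RH.1 ha) (mem_RH.1 hb)
  have hA := norm_nonneg (g a)
  have hB := norm_nonneg (g b)
  have h1 := (core_Base hg ha hb).trans (mul_le_mul_of_nonneg_right h (mul_nonneg hA hB))
  have h2 : (‖g a‖ - ‖g b‖) ^ 2 ≤ L * (‖g a‖ * ‖g b‖) :=
    le_of_mul_le_mul_right (by linarith) hp
  by_contra hc
  have hc := not_le.1 hc
  have hA' : 0 < ‖g a‖ := lt_of_le_of_lt (by positivity) hc
  nlinarith [mul_lt_mul_of_pos_left hc hA', sq_nonneg ‖g b‖]

theorem sMon : SMon := by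
  intro g hg r s hr hrs
  have hs : 0 < s := hr.trans_le hrs
  have h1 := core_Base hg (a := s) (b := r) (by simpa [mem_RH] using hs)
    (by simpa [mem_RH] using hr)
  rw [← ofReal_sub, norm_real, Real.norm_eq_abs, sq_abs, ofReal_re, ofReal_re] at h1
  have hA := norm_nonneg (g s)
  have hB := norm_nonneg (g r)
  have h2 : (‖g s‖ * r - ‖g r‖ * s) * (‖g s‖ * s - ‖g r‖ * r) ≤ 0 := by linarith
  have h3 : ‖g s‖ * r - ‖g r‖ * s ≤ ‖g s‖ * s - ‖g r‖ * r := by
    nlinarith [mul_nonneg (add_nonneg hA hB) (sub_nonneg.2 hrs)]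
  constructor
  · unfold mm
    by_contra hc
    have hc := not_le.1 hc
    have := mul_pos_of_neg_of_neg (show ‖g s‖ * r - ‖g r‖ * s < 0 by linarith)
      (show ‖g s‖ * s - ‖g r‖ * r < 0 by linarith)
    linarith
  · by_contra hc
    have hc := not_le.1 hc
    have := mul_pos (show 0 < ‖g s‖ * r - ‖g r‖ * s by linarith)
      (show 0 < ‖g s‖ * s - ‖g r‖ * r by linarith)
    linarith

theorem mem_Hor {x : ℝ} (y : ℝ) (hx : 0 < x) : (x : ℂ) + y * I ∈ RH := by
  simpa [mem_RH] using hx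

theorem sHor (hH : SHar) : SHor := by
  intro g h hg hp
  refine ⟨fun x x' y hx hxx => ?_, fun r y hr hy => ?_⟩
  · have hd : ∀ t : ℝ, 0 < t →
        HasDerivAt (fun s : ℝ => (h (s + y * I)).re) (g (t + y * I)).re t := fun t ht => by
      have a : HasDerivAt (fun w : ℂ => h (w + y * I)) (g (t + y * I)) (t : ℂ) :=
        (hp _ (mem_Hor y ht)).comp_add_const (t : ℂ) (y * I)
      exact a.real_of_complex
    have hm : MonotoneOn (fun s : ℝ => (h (s + y * I)).re) (Ioi 0) :=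
      monotoneOn_of_deriv_nonneg (convex_Ioi 0)
        (fun t ht => (hd t ht).continuousAt.continuousWithinAt)
        (fun t ht => (hd t (interior_subset ht)).differentiableAt.differentiableWithinAt)
        fun t ht => by
          rw [(hd t (interior_subset ht)).deriv]
          exact hg.nonneg _ (mem_Hor y (interior_subset ht))
    exact hm hx (hx.trans_le hxx) hxx
  · have hd : ∀ s ∈ Icc (-r) r, HasDerivWithinAt (fun s : ℝ => h (r + s * I))
        (g (r + s * I) * I) (Icc (-r) r) s := fun s _ => by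
      have a : HasDerivAt (fun w : ℂ => (r : ℂ) + w * I) I (s : ℂ) := by
        simpa using ((hasDerivAt_id (s : ℂ)).mul_const I).const_add (r : ℂ)
      exact ((hp _ (mem_Hor s hr)).comp (s : ℂ) a).comp_ofReal.hasDerivWithinAt
    have hb : ∀ s ∈ Icc (-r) r, ‖g (r + s * I) * I‖ ≤ 3 * ‖g r‖ := fun s hs => by
      have a := hH g hg _ (mem_Hor s hr) r (by simpa [mem_RH] using hr) 1 zero_le_one (by
        have : s ^ 2 ≤ r ^ 2 := sq_le_sq' hs.1 hs.2
        simpa [sq] using this)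
      rw [norm_mul, norm_I, mul_one]
      linarith
    have a := (convex_Icc (-r) r).norm_image_sub_le_of_norm_hasDerivWithin_le hd hb
      (x := 0) ⟨by linarith, hr.le⟩ (abs_le.1 hy)
    simp only [ofReal_zero, zero_mul, add_zero, sub_zero, Real.norm_eq_abs] at a
    refine a.trans ?_
    unfold mm
    nlinarith [mul_le_mul_of_nonneg_left hy (norm_nonneg (g r))]

theorem norm_der_Ta {f : ℝ → ℂ} {f' : ℂ} {x : ℝ} (hf : HasDerivAt f f' x) (h0 : f x ≠ 0) :
    ∃ d : ℝ, HasDerivAt (fun y => ‖f y‖) d x ∧ -‖f'‖ ≤ d := by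
  have n0 : 0 < ‖f x‖ := norm_pos_iff.2 h0
  have h1 := hf.norm_sq.sqrt (pow_pos n0 2).ne'
  simp only [Real.sqrt_sq (norm_nonneg _)] at h1
  refine ⟨_, h1, ?_⟩
  rw [le_div_iff₀ (by positivity)]
  have := (abs_le.1 (abs_real_inner_le_norm (f x) f')).1
  linarith

theorem sTa (hD : SDer) : STa := by
  intro g h hg hz hp r hr
  have mem : ∀ x : ℝ, 0 < x → (x : ℂ) ∈ RH := fun x hx => by simpa [mem_RH] using hx
  have dg : ∀ x : ℝ, 0 < x → HasDerivAt (fun y : ℝ => g y) (deriv g x) x := fun x hx =>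
    ((hg.diff _ (mem x hx)).differentiableAt (isOpen_RH.mem_nhds (mem x hx))).hasDerivAt.comp_ofReal
  have cg : ContinuousOn (fun y : ℝ => ‖g y‖) (Ioi 0) := fun x hx =>
    (dg x hx).continuousAt.norm.continuousWithinAt
  have dT : ∀ x : ℝ, 1 ≤ x → HasDerivAt (TT g) ‖g x‖ x := fun x hx => by
    have x0 : 0 < x := by linarith
    refine intervalIntegral.integral_hasDerivAt_right (f := fun y : ℝ => ‖g y‖)
      (ContinuousOn.intervalIntegrable (cg.mono fun y hy => ?_))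
      (cg.stronglyMeasurableAtFilter isOpen_Ioi x x0) (dg x x0).continuousAt.norm
    rw [uIcc_of_le hx] at hy
    exact lt_of_lt_of_le one_pos hy.1
  have dh : ∀ x : ℝ, 1 ≤ x → HasDerivAt (fun y : ℝ => (h y).re) (g x).re x := fun x hx =>
    (hp _ (mem x (by linarith))).real_of_complex
  have T1 : TT g 1 = 0 := by simp [TT]
  constructor
  · have := le_of_der (f := fun y : ℝ => TT g y - (h y).re) (f' := fun y => ‖g y‖ - (g y).re)
      zero_le_one hr (fun t ht => ((dT t ht.1).sub (dh t ht.1)).hasDerivWithinAt)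
      fun t _ => sub_nonneg.2 (re_le_norm _)
    simp only [T1, ofReal_one] at this
    linarith
  · have ex : ∀ x : ℝ, ∃ d : ℝ, 0 < x →
        HasDerivAt (fun y : ℝ => ‖g y‖) d x ∧ -‖deriv g x‖ ≤ d := fun x => by
      by_cases hx : 0 < x
      · obtain ⟨d, hd⟩ := norm_der_Ta (dg x hx) (hz _ (mem x hx))
        exact ⟨d, fun _ => hd⟩
      · exact ⟨0, fun e => absurd e hx⟩
    choose d hd using ex
    have := le_of_der (f := fun y : ℝ => y * ‖g y‖ + (h y).re - TT g y)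
      (f' := fun y => 1 * ‖g y‖ + y * d y + (g y).re - ‖g y‖) zero_le_one hr
      (fun t ht => ((((hasDerivAt_id' t).mul (hd t (by linarith [ht.1])).1).add
        (dh t ht.1)).sub (dT t ht.1)).hasDerivWithinAt)
      fun t ht => by
        have t0 : 0 < t := by linarith [ht.1]
        have a1 := hD g hg _ (mem t t0)
        have a2 := mul_le_mul_of_nonneg_left (hd t t0).2 t0.le
        rw [ofReal_re] at a1
        linarith
    simp only [T1, ofReal_one] at this
    have := norm_nonneg (g 1)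
    rw [mm]
    linarith

theorem int_Tb {f : ℝ → ℝ} (hf : ContinuousOn f (Ioi 0)) {a b : ℝ} (ha : 0 < a) (hb : 0 < b) :
    IntervalIntegrable f MeasureTheory.volume a b :=
  (hf.mono fun _ hx => (lt_min ha hb).trans_le hx.1).intervalIntegrable

theorem sTb (hM : SMon) : STb := by
  intro g hg r K hr hK
  have r0 : 0 < r := by linarith
  have hrK : r ≤ K * r := le_mul_of_one_le_left r0.le hK
  have K0 : 0 < K * r := r0.trans_le hrK
  have hc : ContinuousOn (fun x : ℝ => ‖g x‖) (Ioi 0) :=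
    (hg.diff.continuousOn.comp continuous_ofReal.continuousOn fun x hx => by
      simpa [mem_RH] using hx).norm
  have hi : ∀ c : ℝ, ContinuousOn (fun x : ℝ => c * x⁻¹) (Ioi 0) := fun c =>
    continuousOn_const.mul (continuousOn_id.inv₀ fun x hx => ne_of_gt hx)
  have e1 : TT g (K * r) = TT g r + ∫ x in r..K * r, ‖g x‖ :=
    (intervalIntegral.integral_add_adjacent_intervals (int_Tb hc one_pos r0)
      (int_Tb hc r0 K0)).symm
  have e2 : ∀ c : ℝ, ∫ x in r..K * r, c * x⁻¹ = Real.log K * c := fun c => by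
    rw [intervalIntegral.integral_const_mul, integral_inv_of_pos r0 K0,
      mul_div_cancel_right₀ _ r0.ne', mul_comm]
  rw [e1, ← e2, ← e2]
  refine ⟨add_le_add_right (intervalIntegral.integral_mono_on hrK (int_Tb (hi _) r0 K0)
    (int_Tb hc r0 K0) fun x hx => ?_) _, add_le_add_right (intervalIntegral.integral_mono_on hrK
    (int_Tb hc r0 K0) (int_Tb (hi _) r0 K0) fun x hx => ?_) _⟩
  · have x0 := r0.trans_le hx.1
    rw [← div_eq_mul_inv, div_le_iff₀' x0]
    exact (hM g hg r x r0 hx.1).1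
  · have x0 := r0.trans_le hx.1
    rw [← div_eq_mul_inv, le_div_iff₀' x0]
    exact (hM g hg x (K * r) x0 hx.2).1

theorem one_Im {g h : ℂ → ℂ} (hg : Her g) (hh : Pr h g) {R : ℝ} (hR : 0 < R) {b : ℂ} (hb : b ∈ RH)
    (h1 : b.re ≤ R) (h2 : |b.im| ≤ R) : -(10 * mm g R) ≤ (h R - h b).im := by
  obtain ⟨x, y⟩ := b
  have hx : 0 < x := hb
  simp only at h1 h2
  have hb0 : (x : ℂ) ≠ 0 := ofReal_ne_zero.2 hx.ne'
  have hm : ∀ z ∈ RH, (y * I + x * z : ℂ) ∈ RH := fun z hz => by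
    have := mul_pos hx (mem_RH.1 hz)
    simpa [mem_RH] using this
  have hl : ∀ z : ℂ, HasDerivAt (fun z => (y * I + x * z : ℂ)) x z := fun z => by
    simpa using ((hasDerivAt_id z).const_mul (x : ℂ)).const_add (y * I)
  obtain ⟨p, hp⟩ : ∃ p : ℂ, p = ⟨R / x, -y / x⟩ := ⟨_, rfl⟩
  have p1 : p.re = R / x := by rw [hp]
  have p2 : p.im = -y / x := by rw [hp]
  have pe : (y * I + x * p : ℂ) = R := by
    apply Complex.ext
    · simp [p1]
      field_simp
    · simp [p2]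
      field_simp
      ring
  have pb : (y * I + x * 1 : ℂ) = ⟨x, y⟩ := by
    apply Complex.ext <;> simp
  have k := lin_ineq (p := p) (by rw [p1, le_div_iff₀ hx]; linarith)
    (Q := fun z => g (y * I + x * z)) (g := fun z => h (y * I + x * z) / x)
    (fun z hz => (((hh _ (hm z hz)).comp z (hl z)).div_const (x : ℂ)).congr_deriv (by field_simp))
    (hg.diff.comp (fun z _ => (hl z).differentiableAt.differentiableWithinAt) hm)
    (fun z hz => hg.nonneg _ (hm z hz))
  simp only [pe, pb, ← sub_div, div_ofReal_im, AA, p1, p2] at k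
  have a0 := acot_pos (-y / x / (R / x))
  have a1 : acot (-y / x / (R / x)) ≤ 4 := by
    have := acot_pos (-(-y / x / (R / x)))
    rw [acot_neg] at this
    linarith [Real.pi_le_four]
  generalize acot (-y / x / (R / x)) = A at k a0 a1
  have r0 : 0 ≤ (g R).re := hg.nonneg _ (by simpa [mem_RH] using hR)
  have r1 := re_le_norm (g R)
  have r2 := abs_le.1 (abs_im_le_norm (g R))
  have n0 := norm_nonneg (g R)
  rw [mm]
  generalize (h R - h ⟨x, y⟩).im = D at k ⊢
  generalize (g R).re = u at *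
  generalize (g R).im = v at *
  generalize ‖g R‖ = n at *
  have k2 : 0 ≤ (A * (R ^ 2 + y ^ 2) + y * (R - x)) * u - R * ((R - x) * v) + R * D := by
    refine le_of_le_of_eq (mul_nonneg k (by positivity : 0 ≤ x * R)) ?_
    field_simp
    ring
  have y2 : y ^ 2 ≤ R ^ 2 := sq_le_sq' (abs_le.1 h2).1 (abs_le.1 h2).2
  have b1 : A * (R ^ 2 + y ^ 2) ≤ 4 * (R ^ 2 + R ^ 2) :=
    mul_le_mul a1 (by linarith) (by positivity) (by norm_num)
  have b2 : y * (R - x) ≤ R * R :=
    (mul_le_mul_of_nonneg_right (abs_le.1 h2).2 (by linarith)).trans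
      (mul_le_mul_of_nonneg_left (by linarith) hR.le)
  have b3 : (A * (R ^ 2 + y ^ 2) + y * (R - x)) * u ≤ 9 * R ^ 2 * n :=
    (mul_le_mul_of_nonneg_right (by linarith) r0).trans
      (mul_le_mul_of_nonneg_left r1 (by positivity))
  have b4 : (R - x) * -v ≤ R * n :=
    (mul_le_mul_of_nonneg_left (by linarith [r2.1]) (by linarith)).trans
      (mul_le_mul_of_nonneg_right (by linarith) n0)
  have b5 := mul_le_mul_of_nonneg_left b4 hR.le
  exact le_of_mul_le_mul_left (by linarith) hR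

open ComplexConjugate in
theorem sIm : SIm := by
  refine ⟨10, by norm_num, fun g h hg hh R hR b hb h1 h2 => abs_le.2 ⟨one_Im hg hh hR hb h1 h2, ?_⟩⟩
  have k := one_Im hg.mirror (h := conj ∘ h ∘ conj) (fun w hw => by
    simpa using (hh _ (conj_mem hw)).conj_conj) hR (conj_mem hb) (by simpa using h1)
    (by simpa using h2)
  simp only [mm, Function.comp, conj_ofReal, conj_conj, norm_conj, sub_im, conj_im] at k ⊢
  linarith

theorem mvt_A {f f' : ℝ → ℝ} {a b : ℝ} (hab : a ≤ b)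
    (hd : ∀ x ∈ Icc a b, HasDerivAt f (f' x) x) : ∃ c ∈ Icc a b, f b - f a = f' c * (b - a) := by
  rcases hab.eq_or_lt with rfl | h
  · exact ⟨a, left_mem_Icc.2 le_rfl, by simp⟩
  · obtain ⟨c, hc, e⟩ := exists_hasDerivAt_eq_slope f f' h
      (fun x hx => (hd x hx).continuousAt.continuousWithinAt) fun x hx => hd x (Ioo_subset_Icc_self hx)
    exact ⟨c, Ioo_subset_Icc_self hc, by rw [e, div_mul_cancel₀ _ (sub_pos.2 h).ne']⟩

theorem der_A {Φ h : ℂ → ℂ} (hΦ : Pr Φ h) (a d : ℂ) (v : ℝ) (hm : 0 < (a + v * d).re) :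
    HasDerivAt (fun u : ℝ => (Φ (a + u * d)).im) (h (a + v * d) * d).im v := by
  have h1 : HasDerivAt (fun z : ℂ => a + z * d) d (v : ℂ) := by
    simpa using ((hasDerivAt_id (v : ℂ)).mul_const d).const_add a
  exact imCLM.hasFDerivAt.comp_hasDerivAt v ((hΦ _ hm).comp (v : ℂ) h1).comp_ofReal

theorem ver_A {Φ h : ℂ → ℂ} (hΦ : Pr Φ h) {x r : ℝ} (e : ℝ) (hx : 0 < x) (hr : 0 ≤ r) :
    ∃ c ∈ Icc 0 r, (Φ (x + (e * r : ℝ) * I)).im - (Φ x).im = e * (h (x + (e * c : ℝ) * I)).re * r := by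
  have q : ∀ u : ℝ, (x : ℂ) + u * (e * I) = x + (e * u : ℝ) * I := fun u => by push_cast; ring
  obtain ⟨c, hc, t⟩ := mvt_A hr fun v _ => der_A hΦ x (e * I) v (by simpa using hx)
  simp only [q] at t
  refine ⟨c, hc, ?_⟩
  rw [mul_zero, ofReal_zero, zero_mul, add_zero, sub_zero] at t
  rw [t]
  simp only [mul_im, mul_re, ofReal_re, ofReal_im, I_re, I_im]
  ring

theorem sA (hO : SHor) (hI : SIm) : SA := by
  obtain ⟨C, hC, hI⟩ := hI
  refine ⟨2 * C + 3, by linarith, fun g h hg hh w t M r ht hw w0 hs hr hn => ?_⟩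
  obtain ⟨o1, o2⟩ := hO g h hg hh
  have r0 : 0 < r := by linarith
  have m0 : 0 ≤ mm g r := mul_nonneg r0.le (norm_nonneg _)
  have Cm := mul_nonneg hC m0
  have o3 : ∀ y : ℝ, |y| ≤ r → (h r).re ≤ (h (r + y * I)).re + 3 * mm g r := fun y hy => by
    have := (abs_le.1 ((abs_re_le_norm _).trans (o2 r y r0 hy))).1
    rw [sub_re] at this
    linarith
  obtain ⟨t1, t2⟩ := hs t (right_mem_Icc.2 ht)
  by_cases c : |(w t).im| ≤ r
  · have a := norm_le_abs_re_add_abs_im (w t)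
    rw [abs_of_pos (by linarith : 0 < (w t).re)] at a
    have b := o1 r (w t).re (w t).im r0 (by linarith)
    rw [re_add_im] at b
    linarith [o3 _ c]
  obtain ⟨e, e1, e2⟩ : ∃ e : ℝ, (e = 1 ∨ e = -1) ∧ r ≤ e * (w t).im := by
    rcases abs_cases (w t).im with d | d
    · exact ⟨1, Or.inl rfl, by linarith [not_le.1 c]⟩
    · exact ⟨-1, Or.inr rfl, by linarith [not_le.1 c]⟩
  have ee : e * e = 1 := by rcases e1 with rfl | rfl <;> norm_num
  have ea : ∀ v ∈ Icc 0 r, |e * v| ≤ r := fun v hv => by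
    rcases e1 with rfl | rfl <;> simpa [abs_of_nonneg hv.1] using hv.2
  have up : ∀ v ∈ Icc 0 r, (h ((1 : ℝ) + (e * v : ℝ) * I)).re ≤ M := fun v hv => by
    obtain ⟨s, hs1, hs2⟩ := intermediate_value_Icc ht (f := fun s => e * (w s).im)
      (continuousOn_const.mul (continuous_im.comp_continuousOn hw))
      (show v ∈ _ from ⟨by simpa [w0] using hv.1, hv.2.trans e2⟩)
    have i : e * v = (w s).im := by rw [← hs2, ← mul_assoc, ee, one_mul]
    have b := o1 1 (w s).re (w s).im one_pos (hs s hs1).1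
    rw [re_add_im] at b
    rw [i]
    exact b.trans (hs s hs1).2
  obtain ⟨Φ, hΦ⟩ := exists_prim (Q := h) fun z hz => (hh z hz).differentiableAt.differentiableWithinAt
  obtain ⟨c1, a1, b1⟩ := ver_A hΦ e one_pos r0.le
  obtain ⟨c2, a2, b2⟩ := ver_A hΦ e r0 r0.le
  obtain ⟨c3, a3, b3⟩ := mvt_A hr fun v hv =>
    (der_A hΦ ((e * r : ℝ) * I) 1 v (by simp; linarith [hv.1])).sub
      (der_A hΦ 0 1 v (by simp; linarith [hv.1]))
  simp only [Pi.sub_apply, mul_one, zero_add, add_comm (((e * r : ℝ) : ℂ) * I)] at b3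
  have i1 := hI g h hg hh r r0 (c3 + (e * r : ℝ) * I) (by simp [mem_RH]; linarith [a3.1])
    (by simpa using a3.2) (by simpa using ea r (right_mem_Icc.2 r0.le))
  have i2 := hI g h hg hh r r0 c3 (by simp [mem_RH]; linarith [a3.1]) (by simpa using a3.2)
    (by simpa using r0.le)
  rw [sub_im] at i1 i2
  have d : e * ((h (c3 + (e * r : ℝ) * I)).im - (h c3).im) ≤ 2 * (C * mm g r) := by
    have j1 := abs_le.1 i1
    have j2 := abs_le.1 i2
    rcases e1 with rfl | rfl <;> linarith [j1.1, j1.2, j2.1, j2.2]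
  have u1 := up c1 a1
  have u2 := o3 _ (ea c2 a2)
  have k : ((h (r + (e * c2 : ℝ) * I)).re - (h ((1 : ℝ) + (e * c1 : ℝ) * I)).re) * r =
      e * ((h (c3 + (e * r : ℝ) * I)).im - (h c3).im) * (r - 1) := by
    linear_combination e * b3 - e * b2 + e * b1 -
      ((h (r + (e * c2 : ℝ) * I)).re - (h ((1 : ℝ) + (e * c1 : ℝ) * I)).re) * r * ee
  have k2 := mul_le_mul_of_nonneg_right d (sub_nonneg.2 hr)
  have k3 : (h (r + (e * c2 : ℝ) * I)).re - (h ((1 : ℝ) + (e * c1 : ℝ) * I)).re ≤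
      2 * (C * mm g r) := le_of_mul_le_mul_right (by linarith) r0
  linarith

theorem lip_B {f f' : ℝ → ℝ} {a b A : ℝ} (ha : 0 ≤ a) (hab : a ≤ b)
    (hd : ∀ t ∈ Icc a b, HasDerivWithinAt f (f' t) (Ici 0) t) (hp : ∀ t ∈ Icc a b, |f' t| ≤ A) :
    |f b - f a| ≤ A * (b - a) := by
  have h0 : ∀ t : ℝ, HasDerivWithinAt (fun u : ℝ => A * u) A (Ici 0) t := fun t => by
    simpa using ((hasDerivAt_id t).const_mul A).hasDerivWithinAt
  have h1 := le_of_der (f := fun u => A * u - f u) ha hab (fun t ht => (h0 t).sub (hd t ht))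
    fun t ht => sub_nonneg.2 (abs_le.1 (hp t (Ioo_subset_Icc_self ht))).2
  have h2 := le_of_der (f := fun u => A * u + f u) ha hab (fun t ht => (h0 t).add (hd t ht))
    fun t ht => by linarith [(abs_le.1 (hp t (Ioo_subset_Icc_self ht))).1]
  exact abs_le.2 ⟨by linarith, by linarith⟩

theorem quot_B {p : ℂ} {A : ℝ} (hp : 0 ≤ p.re) (hA : 0 < A) :
    p + A ≠ 0 ∧ 0 ≤ (p / (p + A)).re ∧ ‖p / (p + A)‖ ≤ 1 ∧ ‖p / (p + A)‖ ≤ ‖p‖ / A := by
  have h1 : A ≤ ‖p + A‖ := le_trans (by simpa using hp) (re_le_norm _)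
  have h2 : ‖p‖ ≤ ‖p + A‖ := by
    refine le_of_pow_le_pow_left₀ two_ne_zero (norm_nonneg _) ?_
    simp only [Complex.sq_norm, normSq_apply, add_re, add_im, ofReal_re, ofReal_im, add_zero]
    nlinarith
  refine ⟨norm_pos_iff.1 (hA.trans_le h1), ?_, ?_, ?_⟩
  · rw [div_re]
    simp only [add_re, add_im, ofReal_re, ofReal_im, add_zero]
    exact add_nonneg (div_nonneg (mul_nonneg hp (by linarith)) (normSq_nonneg _))
      (div_nonneg (mul_self_nonneg _) (normSq_nonneg _))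
  · rw [norm_div]
    exact div_le_one_of_le₀ h2 (norm_nonneg _)
  · rw [norm_div]
    exact div_le_div_of_nonneg_left (norm_nonneg _) hA h1

theorem sB (hH : SHar) (hM : SMon) (hI : SIm) : SB := by
  obtain ⟨c, hc, hI⟩ := hI
  refine ⟨16 * (32 * c + 1) + 80, by positivity, fun P w hP hN ho h0 R s t hR hs hst h1 h2 => ?_⟩
  have cw : ContinuousOn w (Ici 0) := fun u hu => (ho.der u hu).continuousWithinAt
  obtain ⟨v, hv, ev⟩ := intermediate_value_Icc hst
    (cw.mono (fun u hu => hs.trans hu.1 : Icc s t ⊆ Ici 0)).norm ⟨by linarith, h2⟩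
  have ev' : ‖w v‖ = 4 * R := ev
  have v0 : 0 ≤ v := hs.trans hv.1
  have r1 : ((4 * R : ℝ) : ℂ) ∈ RH := by rw [mem_RH, ofReal_re]; linarith
  have N0 : 0 < ‖P ((4 * R : ℝ) : ℂ)‖ := norm_pos_iff.2 (hN _ r1)
  have N1 : ‖P ((4 * R : ℝ) : ℂ)‖ ≤ 4 * ‖P R‖ :=
    le_of_mul_le_mul_right ((hM P hP R (4 * R) hR (by linarith)).2.trans_eq (by ring)) hR
  have fin : ∀ K d : ℝ, 0 ≤ K → 4 * K ≤ 16 * (32 * c + 1) + 80 → d ≤ t - s →
      R ≤ K * ‖P ((4 * R : ℝ) : ℂ)‖ * d → R ≤ (16 * (32 * c + 1) + 80) * (t - s) * ‖P R‖ := by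
    intro K d hK h3 h4 h5
    have h6 : 0 ≤ t - s := sub_nonneg.2 hst
    calc R ≤ K * ‖P ((4 * R : ℝ) : ℂ)‖ * d := h5
      _ ≤ K * ‖P ((4 * R : ℝ) : ℂ)‖ * (t - s) := mul_le_mul_of_nonneg_left h4 (by positivity)
      _ ≤ K * (4 * ‖P R‖) * (t - s) := by gcongr
      _ = 4 * K * (t - s) * ‖P R‖ := by ring
      _ ≤ _ := by gcongr
  generalize hNN : ‖P ((4 * R : ℝ) : ℂ)‖ = N at N0 N1 fin
  rcases le_total (R / 2) |(w v).im - (w s).im| with hcase | hcase
  · have A0 : 0 < (32 * c + 1) * N := by positivity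
    generalize hA : (32 * c + 1) * N = A at A0
    have q := fun z (hz : z ∈ RH) => quot_B (hP.nonneg z hz) A0
    have hF : Her fun z => P z / (P z + A) :=
      ⟨hP.diff.div (hP.diff.add_const _) fun z hz => (q z hz).1, fun z hz => (q z hz).2.1⟩
    obtain ⟨Ψ, hΨ⟩ := exists_prim hF.diff
    have b1 : c * mm (fun z => P z / (P z + A)) (4 * R) ≤ R / 8 := by
      have e := (q _ r1).2.2.2
      rw [hNN, ← hA, div_mul_cancel_right₀ N0.ne'] at e
      rw [hA] at e
      have e2 : c * (32 * c + 1)⁻¹ ≤ 1 / 32 := by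
        rw [← div_eq_mul_inv, div_le_div_iff₀ (by positivity) (by norm_num)]
        linarith
      calc _ ≤ c * (4 * R * (32 * c + 1)⁻¹) := by unfold mm; gcongr
        _ = 4 * R * (c * (32 * c + 1)⁻¹) := by ring
        _ ≤ 4 * R * (1 / 32) := by gcongr
        _ = R / 8 := by ring
    have b2 : ∀ u, 0 ≤ u → ‖w u‖ ≤ 4 * R → |(Ψ ((4 * R : ℝ) : ℂ) - Ψ (w u)).im| ≤ R / 8 :=
      fun u hu h => (hI _ Ψ hF hΨ (4 * R) (by linarith) _ (ho.mem u hu) ((re_le_norm _).trans h)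
        ((abs_im_le_norm _).trans h)).trans b1
    have b3 := abs_le.1 (b2 s hs (by linarith))
    have b4 := abs_le.1 (b2 v v0 ev'.le)
    have b5 := lip_B (f := fun u => (w u - Ψ (w u)).im)
      (f' := fun u => (P (w u) - P (w u) / (P (w u) + A) * P (w u)).im) (A := A) hs hv.1
      (fun u hu => imCLM.hasFDerivAt.comp_hasDerivWithinAt u ((ho.der u (hs.trans hu.1)).sub
        ((hΨ _ (ho.mem u (hs.trans hu.1))).comp_hasDerivWithinAt u (ho.der u (hs.trans hu.1)))))
      fun u hu => by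
        obtain ⟨q1, -, q3, -⟩ := q _ (ho.mem u (hs.trans hu.1))
        have e : P (w u) - P (w u) / (P (w u) + A) * P (w u) = A * (P (w u) / (P (w u) + A)) := by
          field_simp
          ring
        refine (abs_im_le_norm _).trans ?_
        rw [e, norm_mul, norm_real, Real.norm_of_nonneg A0.le]
        exact mul_le_of_le_one_right A0.le q3
    simp only [sub_im] at b3 b4 b5
    have b6 := abs_le.1 b5
    have b7 : |(w v).im - (w s).im| ≤ A * (v - s) + R / 4 :=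
      abs_le.2 ⟨by linarith [b3.1, b3.2, b4.1, b4.2, b6.1], by linarith [b3.1, b3.2, b4.1, b4.2, b6.2]⟩
    refine fin (4 * (32 * c + 1)) (v - s) (by positivity) (by linarith) (by linarith [hv.2]) ?_
    rw [mul_assoc 4, hA]
    linarith
  · have a1 := abs_le.1 ((abs_im_le_norm (w s)).trans h1)
    have a2 := abs_le.1 hcase
    have a3 : |(w v).im| ≤ 3 * R / 2 := abs_le.2 ⟨by linarith [a1.1, a2.1], by linarith [a1.2, a2.2]⟩
    have a4 := norm_le_abs_re_add_abs_im (w v)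
    rw [abs_of_pos (mem_RH.1 (ho.mem v v0))] at a4
    have a5 := (re_le_norm (w s)).trans h1
    obtain ⟨u, hu, eu⟩ := intermediate_value_Icc hv.1
      (continuous_re.comp_continuousOn (cw.mono (fun u hu => hs.trans hu.1 : Icc s v ⊆ Ici 0)))
      (show 2 * R ∈ Icc (w s).re (w v).re from ⟨by linarith, by linarith⟩)
    have eu' : (w u).re = 2 * R := eu
    have u0 : 0 ≤ u := hs.trans hu.1
    have b := lip_B (f := fun x => (w x).re) (f' := fun x => (P (w x)).re) (A := 10 * N) u0 hu.2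
      (fun x hx => ho.dre (u0.trans hx.1)) fun x hx => by
        have x0 : 0 ≤ x := u0.trans hx.1
        have c1 := ho.re_le hP u0 hx.1
        have c2 := bk hP ho (by rw [h0, one_im]) x0 hx.2
        have c3 : ‖w x - ((4 * R : ℝ) : ℂ)‖ ≤ 8 * R := by
          refine (norm_sub_le _ _).trans ?_
          rw [norm_real, Real.norm_of_nonneg (by linarith)]
          linarith
        have c4 := hH P hP _ (ho.mem x x0) _ r1 8 (by norm_num) (by
          refine (pow_le_pow_left₀ (norm_nonneg _) c3 2).trans ?_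
          rw [ofReal_re]
          nlinarith)
        rw [hNN] at c4
        exact (abs_re_le_norm _).trans (by linarith)
    refine fin 20 (v - u) (by norm_num) (by linarith) (by linarith [hv.2, hu.1]) ?_
    linarith [(abs_le.1 b).2]

theorem sUp (hO : SHor) (ha : STa) (hb : STb) : SUp := by
  have hK : (1 : ℝ) ≤ Real.exp 3 := Real.one_le_exp (by norm_num)
  refine ⟨Real.exp 3, hK, fun g h hg hz hp ζ hζ h1 => ?_⟩
  obtain ⟨o1, o2⟩ := hO g h hg hp
  have e1 := o1 ζ.re ‖ζ‖ ζ.im (mem_RH.1 hζ) (re_le_norm ζ)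
  rw [re_add_im] at e1
  have e2 := (re_le_norm _).trans (o2 ‖ζ‖ ζ.im (by linarith) (abs_im_le_norm ζ))
  rw [sub_re] at e2
  have e3 := (ha g h hg hz hp ‖ζ‖ h1).1
  have e4 := (hb g hg ‖ζ‖ (Real.exp 3) h1 hK).1
  rw [Real.log_exp] at e4
  linarith

theorem cont_Up {g : ℂ → ℂ} (hg : Her g) : ContinuousOn (fun x : ℝ => ‖g x‖) (Ioi 0) :=
  (hg.1.continuousOn.comp continuous_ofReal.continuousOn fun x hx =>
    mem_RH.2 (by simpa using hx)).norm

theorem der_Up {g : ℂ → ℂ} (hg : Her g) {r : ℝ} (hr : 0 < r) : HasDerivAt (TT g) ‖g r‖ r := by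
  have hc := cont_Up hg
  refine intervalIntegral.integral_hasDerivAt_right (f := fun x : ℝ => ‖g x‖)
    ((hc.mono fun x hx => ?_).intervalIntegrable) (hc.stronglyMeasurableAtFilter isOpen_Ioi r hr)
    (hc.continuousAt (Ioi_mem_nhds hr))
  exact lt_of_lt_of_le (lt_min one_pos hr) hx.1

theorem sOnto (hb : STb) : SOnto := by
  intro g hg hz
  have hpos : ∀ r : ℝ, 0 < r → 0 < ‖g r‖ := fun r hr =>
    norm_pos_iff.2 (hz _ (mem_RH.2 (by simpa using hr)))
  have hc : ContinuousOn (TT g) (Ici 1) := fun r hr =>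
    (der_Up hg (one_pos.trans_le hr)).continuousAt.continuousWithinAt
  refine ⟨strictMonoOn_of_deriv_pos (convex_Ici 1) hc fun r hr => ?_, fun t ht => ?_⟩
  · have h0 : 0 < r := one_pos.trans_le (mem_Ici.1 (interior_subset hr))
    rw [(der_Up hg h0).deriv]
    exact hpos r h0
  · have h0 : TT g 1 = 0 := intervalIntegral.integral_same
    have hm : 0 < mm g 1 := mul_pos one_pos (hpos 1 one_pos)
    have hK : 1 ≤ Real.exp (t / mm g 1) := Real.one_le_exp (div_nonneg ht hm.le)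
    have h1 := (hb g hg 1 _ le_rfl hK).1
    rw [h0, zero_add, Real.log_exp, div_mul_cancel₀ _ hm.ne', mul_one] at h1
    obtain ⟨r, hr, e⟩ := intermediate_value_Icc hK (hc.mono Icc_subset_Ici_self)
      (show t ∈ Icc (TT g 1) (TT g (Real.exp (t / mm g 1))) from ⟨h0.le.trans ht, h1⟩)
    exact ⟨r, hr.1, e⟩

theorem her_Low {P : ℂ → ℂ} (hP : Her P) (hz : Nz P) :
    Her (fun z => (P z)⁻¹) ∧ Nz fun z => (P z)⁻¹ :=
  ⟨⟨hP.diff.inv hz, fun w hw => by
    rw [inv_re]
    exact div_nonneg (hP.nonneg w hw) (normSq_nonneg _)⟩, fun w hw => inv_ne_zero (hz w hw)⟩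

theorem cont_Low {P : ℂ → ℂ} {w : ℝ → ℂ} (ho : Orb P w) {s t : ℝ} (hs : 0 ≤ s) :
    ContinuousOn w (Icc s t) := fun u hu =>
  (ho.der u (hs.trans hu.1)).continuousWithinAt.mono fun _ hv => hs.trans hv.1

theorem ivt_Low {P : ℂ → ℂ} {w : ℝ → ℂ} (ho : Orb P w) {s t R : ℝ} (hs : 0 ≤ s) (hst : s ≤ t)
    (h1 : ‖w s‖ ≤ R) (h2 : R ≤ ‖w t‖) : ∃ u ∈ Icc s t, ‖w u‖ = R :=
  intermediate_value_Icc hst (cont_Low ho hs).norm ⟨h1, h2⟩

theorem sLow (hM : SMon) (ha : STa) (hA : SA) (hB : SB) : SLow := by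
  obtain ⟨CA, hCA, hA⟩ := hA
  obtain ⟨CB, hCB, hB⟩ := hB
  obtain ⟨N, hN⟩ := exists_nat_ge ((CA + 1) * CB)
  have h4 : ∀ n : ℕ, (1 : ℝ) ≤ 4 ^ n := fun n => one_le_pow₀ (by norm_num)
  refine ⟨2 * 4 ^ N, by linarith [h4 N], fun P w h hP hz ho hw0 hpr hre t r ht hr hK => ?_⟩
  obtain ⟨gH, gN⟩ := her_Low hP hz
  have hr0 : 0 < r := by linarith
  have key : ∀ (n : ℕ) (R s : ℝ), r ≤ R → 0 ≤ s → s ≤ t → ‖w s‖ ≤ R → 4 ^ n * R ≤ ‖w t‖ →
      n * mm (fun z => (P z)⁻¹) r ≤ CB * (t - s) := by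
    intro n
    induction n with
    | zero =>
      intro R s _ _ hst _ _
      simpa using mul_nonneg hCB.le (sub_nonneg.2 hst)
    | succ n ih =>
      intro R s hR hs hst h1 h2
      have hR0 : 0 < R := hr0.trans_le hR
      have e : (4 : ℝ) ^ (n + 1) * R = 4 ^ n * (4 * R) := by ring
      rw [e] at h2
      have h3 : 4 * R ≤ ‖w t‖ := le_trans (le_mul_of_one_le_left (by positivity) (h4 n)) h2
      obtain ⟨u, hu, hu'⟩ := ivt_Low ho hs hst (by linarith) h3
      have a1 := ih (4 * R) u (by linarith) (hs.trans hu.1) hu.2 hu'.le h2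
      have a2 := hB P w hP hz ho hw0 R s u hR0 hs hu.1 h1 hu'.ge
      have a3 := (hM _ gH r R hr0 hR).1
      have hPR : 0 < ‖P R‖ := norm_pos_iff.2 (hz _ (mem_RH.2 (by simpa using hR0)))
      have a4 : mm (fun z => (P z)⁻¹) R ≤ CB * (u - s) := by
        unfold mm
        rw [norm_inv, ← div_eq_mul_inv, div_le_iff₀ hPR]
        exact a2
      push_cast
      linarith
  have k1 : 2 * r ≤ ‖w t‖ := by nlinarith [h4 N]
  obtain ⟨u, hu, hu'⟩ := ivt_Low ho le_rfl ht (R := 2 * r) (by rw [hw0, norm_one]; linarith) k1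
  have b1 := key N (2 * r) u (by linarith) hu.1 hu.2 hu'.le (by linarith)
  have b2 := hA _ h gH hpr w u ((h 1).re + u) r hu.1 (cont_Low ho le_rfl) hw0 (fun s hs => ⟨by
    have := ho.re_le hP le_rfl hs.1
    rwa [hw0, one_re] at this, by rw [hre s hs.1]; linarith [hs.2]⟩) hr hu'.ge
  have b3 := (ha _ h gH gN hpr r hr).2
  have b4 : 0 ≤ mm (fun z => (P z)⁻¹) r := mul_nonneg hr0.le (norm_nonneg _)
  have b5 := mul_le_mul_of_nonneg_right hN b4
  have b6 : (CA + 1) * mm (fun z => (P z)⁻¹) r ≤ t - u :=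
    le_of_mul_le_mul_left (by linarith) hCB
  linarith

theorem der_Cv {g : ℂ → ℂ} (hg : Her g) {x : ℝ} (hx : 0 < x) : HasDerivAt (TT g) ‖g x‖ x := by
  have hc : ContinuousOn (fun x : ℝ => ‖g x‖) (Ioi 0) :=
    (hg.diff.continuousOn.comp continuous_ofReal.continuousOn fun y hy => by
      simpa [mem_RH] using hy).norm
  refine intervalIntegral.integral_hasDerivAt_right
    (hc.mono fun y hy => (lt_min one_pos hx).trans_le hy.1).intervalIntegrable
    (hc.stronglyMeasurableAtFilter isOpen_Ioi x hx) (hc.continuousAt (Ioi_mem_nhds hx))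

theorem sCv (hM : SMon) : SCv := by
  intro g hg
  constructor
  · have hd : ∀ u : ℝ, HasDerivAt (fun u : ℝ => TT g (Real.exp (2 * u)))
        (2 * mm g (Real.exp (2 * u))) u := fun u => by
      have h1 := (der_Cv hg (Real.exp_pos (2 * u))).comp u
        ((hasDerivAt_id u).const_mul 2).exp
      refine h1.congr_deriv ?_
      simp only [mm, id]
      ring
    refine MonotoneOn.convexOn_of_deriv (convex_Ici 0)
      (fun u _ => (hd u).continuousAt.continuousWithinAt)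
      (fun u _ => (hd u).differentiableAt.differentiableWithinAt) fun u _ v _ huv => ?_
    rw [(hd u).deriv, (hd v).deriv]
    have := (hM g hg _ _ (Real.exp_pos (2 * u))
      (Real.exp_le_exp.2 (show 2 * u ≤ 2 * v by linarith))).1
    linarith
  · have hd : ∀ X : ℝ, 0 < X → HasDerivAt (fun X : ℝ => TT g (Real.sqrt X))
        (‖g (Real.sqrt X)‖ * (1 / (2 * Real.sqrt X))) X := fun X hX =>
      (der_Cv hg (Real.sqrt_pos.2 hX)).comp X (Real.hasDerivAt_sqrt hX.ne')
    have hp : ∀ X ∈ Ici (1 : ℝ), 0 < X := fun X hX => one_pos.trans_le hX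
    refine AntitoneOn.concaveOn_of_deriv (convex_Ici 1)
      (fun u hu => (hd u (hp u hu)).continuousAt.continuousWithinAt)
      (fun u hu => (hd u (hp u (interior_subset hu))).differentiableAt.differentiableWithinAt)
      fun u hu v hv huv => ?_
    have hu' := hp u (interior_subset hu)
    have hv' := hp v (interior_subset hv)
    have su := Real.sqrt_pos.2 hu'
    have sv := Real.sqrt_pos.2 hv'
    rw [(hd u hu').deriv, (hd v hv').deriv, mul_one_div, mul_one_div,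
      div_le_div_iff₀ (by positivity) (by positivity)]
    have := (hM g hg _ _ su (Real.sqrt_le_sqrt huv)).2
    linarith

theorem sInv (hO : SOnto) (hC : SCv) : SInv := by
  intro g hg hz
  obtain ⟨hm, hs⟩ := hO g hg hz
  obtain ⟨h1, h2⟩ := hC g hg
  have hex : ∀ t : ℝ, ∃ r : ℝ, 1 ≤ r ∧ (0 ≤ t → TT g r = t) := fun t => by
    by_cases h : 0 ≤ t
    · obtain ⟨r, a, b⟩ := hs t h
      exact ⟨r, a, fun _ => b⟩
    · exact ⟨1, le_rfl, fun h' => absurd h' h⟩
  choose r r1 r2 using hex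
  have r0 : ∀ t, 0 < r t := fun t => lt_of_lt_of_le one_pos (r1 t)
  have T1 : TT g 1 = 0 := intervalIntegral.integral_same
  have inv : ∀ x : ℝ, 1 ≤ x → r (TT g x) = x := fun x hx =>
    hm.injOn (r1 _) hx (r2 _ (T1 ▸ hm.monotoneOn (mem_Ici.2 le_rfl) hx hx))
  have c0 : ∀ t, 0 ≤ Real.log (r t) / 2 := fun t => div_nonneg (Real.log_nonneg (r1 t)) two_pos.le
  have e2 : ∀ t, Real.exp (2 * (Real.log (r t) / 2)) = r t := fun t => by
    rw [mul_div_cancel₀ _ two_ne_zero, Real.exp_log (r0 t)]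
  have e4 : ∀ t, Real.exp (4 * (Real.log (r t) / 2)) = r t ^ 2 := fun t => by
    rw [sq]
    nth_rewrite 2 [← e2 t]
    nth_rewrite 3 [← e2 t]
    rw [← Real.exp_add]
    congr 1
    ring
  have key : ∀ u t : ℝ, 0 ≤ u → 0 ≤ t → TT g (Real.exp (2 * u)) ≤ t → u ≤ Real.log (r t) / 2 := by
    intro u t hu ht h
    rw [← r2 t ht, hm.le_iff_le (mem_Ici.2 (Real.one_le_exp (by linarith))) (r1 t),
      ← Real.le_log_iff_exp_le (r0 t)] at h
    linarith
  refine ⟨fun t => Real.log (r t) / 2, ⟨?_, ?_, ⟨convex_Ici 0, ?_⟩, ⟨convex_Ici 0, ?_⟩⟩,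
    fun x hx => by simp only [inv x hx]⟩
  · have := inv 1 le_rfl
    rw [T1] at this
    simp only [this, Real.log_one, zero_div]
  · refine tendsto_atTop.2 fun M => ?_
    filter_upwards [eventually_ge_atTop 0, eventually_ge_atTop (TT g (Real.exp (2 * max M 0)))]
      with t ht ht'
    exact (le_max_left _ _).trans (key _ t (le_max_right _ _) ht ht')
  · intro s hs t ht a b ha hb hab
    have h := h1.2 (mem_Ici.2 (c0 s)) (mem_Ici.2 (c0 t)) ha hb hab
    simp only [e2, r2 s hs, r2 t ht] at h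
    exact key _ _ (add_nonneg (mul_nonneg ha (c0 s)) (mul_nonneg hb (c0 t)))
      (add_nonneg (mul_nonneg ha hs) (mul_nonneg hb ht)) h
  · intro s hs t ht a b ha hb hab
    have q : ∀ t, r t ^ 2 ∈ Ici (1 : ℝ) := fun t => mem_Ici.2 (one_le_pow₀ (r1 t))
    have h := h2.2 (q s) (q t) ha hb hab
    simp only [Real.sqrt_sq (r0 _).le, r2 s hs, r2 t ht] at h
    have m := mem_Ici.1 (convex_Ici (1 : ℝ) (q s) (q t) ha hb hab)
    have z : 0 ≤ a • s + b • t := add_nonneg (mul_nonneg ha hs) (mul_nonneg hb ht)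
    rw [← r2 _ z, hm.le_iff_le (r1 _) (mem_Ici.2 (Real.one_le_sqrt.2 m)),
      Real.le_sqrt (r0 _).le (by linarith)] at h
    simpa only [e4] using h

end Pool.Agent.MP_0641e2_an.Ch
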